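import Mathlib
import Pool.Agent.H777R2.Top

/-!
# Separation in simply connected, locally path connected compact metric spaces
-/

set_option autoImplicit false

open Set Topology

namespace Pool.Agent.N491.HP

section gen

variable {B : Type*} [TopologicalSpace B]

/-- a preconnected set meeting a set and its complement meets the frontier -/
theorem meets_frontier {D F : Set B} (hD : IsPreconnected D) (h1 : (D ∩ F).Nonempty)
    (h2 : (D ∩ Fᶜ).Nonempty) : (D ∩ frontier F).Nonempty := by
  by_contra hcon
  rw [not_nonempty_iff_eq_empty] at hcon
  have hsub : D ⊆ interior F ∪ interior Fᶜ := by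
    intro x hx
    have h3 : x ∉ frontier F := fun h => by
      have : x ∈ D ∩ frontier F := ⟨hx, h⟩
      rw [hcon] at this
      exact this
    by_cases hxF : x ∈ closure F
    · left
      by_contra h4
      exact h3 ⟨hxF, h4⟩
    · right
      rw [interior_compl]
      exact hxF
  have h5 := hD _ _ isOpen_interior isOpen_interior hsub
    (by
      obtain ⟨x, hx, hxF⟩ := h1
      refine ⟨x, hx, ?_⟩
      rcases hsub hx with h | h
      · exact h
      · exact absurd hxF (interior_subset h))
    (by
      obtain ⟨x, hx, hxF⟩ := h2
      refine ⟨x, hx, ?_⟩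
      rcases hsub hx with h | h
      · exact absurd (interior_subset h) hxF
      · exact h)
  obtain ⟨x, -, hx1, hx2⟩ := h5
  exact interior_subset hx2 (interior_subset hx1)

/-- the frontier of a component of an open set misses the open set -/
theorem frontier_comp [LocallyConnectedSpace B] {O : Set B} (hO : IsOpen O) {b : B} :
    frontier (connectedComponentIn O b) ⊆ Oᶜ := by
  intro x hx hxO
  have hop : IsOpen (connectedComponentIn O b) := hO.connectedComponentIn
  have hopx : IsOpen (connectedComponentIn O x) := hO.connectedComponentIn
  have hxc : x ∈ closure (connectedComponentIn O b) := hx.1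
  obtain ⟨y, hy1, hy2⟩ := mem_closure_iff.1 hxc _ hopx (mem_connectedComponentIn hxO)
  have e1 := connectedComponentIn_eq hy1
  have e2 := connectedComponentIn_eq hy2
  have : x ∈ connectedComponentIn O b := by
    rw [e2, ← e1]
    exact mem_connectedComponentIn hxO
  have h3 := hx.2
  rw [hop.interior_eq] at h3
  exact h3 this

/-- a component of a proper open set has a frontier point -/
theorem frontier_comp_nonempty [PreconnectedSpace B] {O : Set B}
    {b : B} (hb : b ∈ O) (hne : Oᶜ.Nonempty) :
    (frontier (connectedComponentIn O b)).Nonempty := by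
  rw [nonempty_frontier_iff]
  refine ⟨⟨b, mem_connectedComponentIn hb⟩, ?_⟩
  intro h
  obtain ⟨x, hx⟩ := hne
  have : x ∈ connectedComponentIn O b := by rw [h]; trivial
  exact hx (connectedComponentIn_subset _ _ this)

theorem comp_union_frontier {O : Set B} {b : B} {T : Set B}
    (hT : T ⊆ frontier (connectedComponentIn O b)) :
    IsPreconnected (connectedComponentIn O b ∪ T) := by
  refine IsPreconnected.subset_closure isPreconnected_connectedComponentIn subset_union_left ?_
  rintro x (hx | hx)
  · exact subset_closure hx
  · exact (hT hx).1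

/-- complement of a component of the complement of a connected closed set -/
theorem compl_comp_preconnected [PreconnectedSpace B] [LocallyConnectedSpace B] {K : Set B}
    (hK : IsClosed K) (hKc : IsConnected K) (v : B) :
    IsPreconnected (connectedComponentIn Kᶜ v)ᶜ := by
  obtain ⟨⟨k0, hk0⟩, hKp⟩ := hKc
  refine isPreconnected_of_forall k0 ?_
  intro y hy
  have hKsub : K ⊆ (connectedComponentIn Kᶜ v)ᶜ := by
    intro x hx hx2
    exact connectedComponentIn_subset _ _ hx2 hx
  by_cases hyK : y ∈ K
  · exact ⟨K, hKsub, hk0, hyK, hKp⟩
  · set W := connectedComponentIn Kᶜ y with hW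
    obtain ⟨p, hp⟩ := frontier_comp_nonempty (O := Kᶜ) (b := y) hyK ⟨k0, by simpa using hk0⟩
    have hpK : p ∈ K := by
      have := frontier_comp hK.isOpen_compl hp
      simpa using this
    refine ⟨W ∪ {p} ∪ K, ?_, Or.inr hk0, Or.inl (Or.inl (mem_connectedComponentIn hyK)), ?_⟩
    · rintro x ((hx | hx) | hx)
      · intro hx2
        have e1 := connectedComponentIn_eq hx
        have e2 := connectedComponentIn_eq hx2
        apply hy
        rw [e2, ← e1]
        exact mem_connectedComponentIn hyK
      · rw [mem_singleton_iff] at hx
        subst hx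
        exact hKsub hpK
      · exact hKsub hx
    · refine IsPreconnected.union p (Or.inr rfl) hpK ?_ hKp
      exact comp_union_frontier (by rintro x rfl; exact hp)

/-- `A` separates `x` from `y` -/
def Sep (A : Set B) (x y : B) : Prop :=
  ∀ D : Set B, IsPreconnected D → x ∈ D → y ∈ D → (D ∩ A).Nonempty

theorem Sep.mono {A A' : Set B} {x y : B} (h : Sep A x y) (hA : A ⊆ A') : Sep A' x y := by
  intro D hD hx hy
  obtain ⟨z, hz1, hz2⟩ := h D hD hx hy
  exact ⟨z, hz1, hA hz2⟩

end gen

/-- Janiszewski: a closed separator contains a connected closed separator -/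
theorem janis {B : Type*} [MetricSpace B] [SimplyConnectedSpace B] [LocallyPathConnectedSpace B]
    {A : Set B} (hA : IsClosed A) {x y : B} (hx : x ∉ A) (hy : y ∉ A) (hs : Sep A x y) :
    ∃ C ⊆ A, IsClosed C ∧ IsPreconnected C ∧ Sep C x y := by
  set U := connectedComponentIn Aᶜ x with hU
  have hUo : IsOpen U := hA.isOpen_compl.connectedComponentIn
  have hUc : IsPreconnected U := isPreconnected_connectedComponentIn
  have hxU : x ∈ U := mem_connectedComponentIn hx
  have hyU : y ∉ closure U := by
    intro h
    have hop : IsOpen (connectedComponentIn Aᶜ y) := hA.isOpen_compl.connectedComponentIn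
    obtain ⟨p, hp1, hp2⟩ := mem_closure_iff.1 h _ hop (mem_connectedComponentIn hy)
    have e1 := connectedComponentIn_eq hp1
    have e2 := connectedComponentIn_eq hp2
    have hyU : y ∈ U := by
      rw [hU, e2, ← e1]
      exact mem_connectedComponentIn hy
    obtain ⟨q, hq1, hq2⟩ := hs U hUc hxU hyU
    exact connectedComponentIn_subset _ _ hq1 hq2
  set V := connectedComponentIn (closure U)ᶜ y with hV
  have hVo : IsOpen V := isClosed_closure.isOpen_compl.connectedComponentIn
  have hyV : y ∈ V := mem_connectedComponentIn hyU
  have hxV : x ∉ V := by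
    intro h
    exact connectedComponentIn_subset _ _ h (subset_closure hxU)
  have h1 : IsPreconnected Vᶜ := compl_comp_preconnected isClosed_closure
    ⟨⟨x, subset_closure hxU⟩, hUc.closure⟩ y
  have h2 : IsPreconnected (closure V) := isPreconnected_connectedComponentIn.closure
  have h3 := Pool.Agent.H777R2.unicoherent (isClosed_closure (s := V)) hVo.isClosed_compl h2 h1
    (by
      ext z
      simp only [mem_union, mem_univ, iff_true]
      by_cases hz : z ∈ V
      · exact Or.inl (subset_closure hz)
      · exact Or.inr hz)
  have hfr : closure V ∩ Vᶜ = frontier V := by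
    rw [hVo.frontier_eq]
    rfl
  rw [hfr] at h3
  refine ⟨frontier V, ?_, isClosed_frontier, h3, ?_⟩
  · intro z hz
    have hz1 : z ∈ closure U := by
      have := frontier_comp (isClosed_closure (s := U)).isOpen_compl hz
      simpa using this
    by_contra hzA
    have hzU : z ∈ U := by
      have hop : IsOpen (connectedComponentIn Aᶜ z) := hA.isOpen_compl.connectedComponentIn
      obtain ⟨p, hp1, hp2⟩ := mem_closure_iff.1 hz1 _ hop (mem_connectedComponentIn hzA)
      have e1 := connectedComponentIn_eq hp1
      have e2 := connectedComponentIn_eq hp2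
      rw [hU, e2, ← e1]
      exact mem_connectedComponentIn hzA
    obtain ⟨p, hp1, hp2⟩ := mem_closure_iff.1 hz.1 U hUo hzU
    exact connectedComponentIn_subset _ _ hp2 (subset_closure hp1)
  · intro D hD hxD hyD
    exact meets_frontier hD ⟨y, hyD, hyV⟩ ⟨x, hxD, hxV⟩

end Pool.Agent.N491.HP
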