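import Mathlib

/-!
# A function on the Hilbert cube whose level sets contain no nonconstant path
-/

set_option autoImplicit false

open Set Topology

namespace Pool.Agent.N491.HP

/-- the Hilbert cube -/
abbrev Q : Type := ℕ → unitInterval

/-- `w` has `m` successive oscillations of size at least `r` -/
def Osc (w : unitInterval → ℝ) (r : ℝ) (m : ℕ) : Prop :=
  ∃ τ : ℕ → unitInterval, Monotone τ ∧ ∀ j < m, r ≤ |w (τ j) - w (τ (j + 1))|

theorem not_osc {w : unitInterval → ℝ} (hw : Continuous w) {r : ℝ} (hr : 0 < r) :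
    ∃ m, ¬ Osc w r m := by
  have huc : UniformContinuous w := CompactSpace.uniformContinuous_of_continuous hw
  obtain ⟨δ, hδ, h⟩ := Metric.uniformContinuous_iff.1 huc r hr
  obtain ⟨m, hm⟩ := exists_nat_gt (1 / δ)
  refine ⟨m, ?_⟩
  rintro ⟨τ, hτ, hj⟩
  have hstep : ∀ j < m, (τ j : ℝ) + δ ≤ τ (j + 1) := by
    intro j hjm
    by_contra hcon
    push Not at hcon
    have h1 : (τ j : ℝ) ≤ τ (j + 1) := hτ (Nat.le_succ j)
    have h2 : dist (τ j) (τ (j + 1)) < δ := by
      rw [Subtype.dist_eq, Real.dist_eq, abs_sub_comm, abs_of_nonneg (by linarith)]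
      linarith
    have h3 := h h2
    rw [Real.dist_eq] at h3
    linarith [hj j hjm]
  have hind : ∀ j ≤ m, (j : ℝ) * δ ≤ τ j := by
    intro j
    induction j with
    | zero => intro _; simpa using (τ 0).2.1
    | succ j ih =>
      intro hjm
      have h1 := ih (by omega)
      have h2 := hstep j (by omega)
      push_cast
      linarith
  have h1 := hind m le_rfl
  have h2 := (τ m).2.2
  rw [div_lt_iff₀ hδ] at hm
  linarith

/-- the condition met generically -/
def OO (i : ℕ) (a b : ℝ) (m : ℕ) : Set C(Q, ℝ) :=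
  {f | ∃ η : ℝ, 0 < η ∧ ∀ γ : unitInterval → Q, Continuous γ →
    (∀ s t, |f (γ s) - f (γ t)| ≤ η) → ((γ 0 i : unitInterval) : ℝ) ≤ a →
    b ≤ ((γ 1 i : unitInterval) : ℝ) →
    Osc (fun t => ((γ t i : unitInterval) : ℝ)) (4 / 5 * (b - a)) m}

theorem isOpen_OO (i : ℕ) (a b : ℝ) (m : ℕ) : IsOpen (OO i a b m) := by
  rw [Metric.isOpen_iff]
  rintro f ⟨η, hη, hf⟩
  refine ⟨η / 4, by positivity, ?_⟩
  intro g hg
  refine ⟨η / 2, by positivity, fun γ hγ hosc h0 h1 => hf γ hγ (fun s t => ?_) h0 h1⟩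
  have hd : ∀ x, |g x - f x| ≤ η / 4 := fun x => by
    have := (ContinuousMap.dist_apply_le_dist (f := g) (g := f) x).trans (le_of_lt hg)
    rwa [Real.dist_eq] at this
  have e1 := abs_le.1 (hd (γ s))
  have e2 := abs_le.1 (hd (γ t))
  have e3 := abs_le.1 (hosc s t)
  rw [abs_le]
  constructor <;> linarith [e1.1, e1.2, e2.1, e2.2, e3.1, e3.2]

/-- clamp -/
noncomputable def cl (x : ℝ) : ℝ := max 0 (min 1 x)

theorem cl_cont : Continuous cl := by unfold cl; fun_prop

theorem cl_nonneg (x : ℝ) : 0 ≤ cl x := le_max_left _ _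

theorem cl_le_one (x : ℝ) : cl x ≤ 1 := max_le zero_le_one (min_le_left _ _)

theorem cl_one {x : ℝ} (hx : 1 ≤ x) : cl x = 1 := by
  unfold cl; rw [min_eq_left hx]; simp

theorem cl_zero {x : ℝ} (hx : x ≤ 0) : cl x = 0 := by
  unfold cl; rw [max_eq_left]; exact (min_le_right _ _).trans hx

theorem cl_pos {x : ℝ} (hx : 0 < cl x) : cl x ≤ x := by
  unfold cl at *
  rcases max_choice 0 (min 1 x) with h | h
  · rw [h] at hx; exact absurd hx (lt_irrefl _)
  · rw [h]; exact min_le_right _ _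

/-- the crooked profile -/
noncomputable def th (ε ω s v : ℝ) : ℝ :=
  s + ε / 2 * ((1 - cl (1 - 10 * v) - cl (10 * v - 9)) * Real.sin (ω * s) +
    cl (1 - 10 * v) - cl (10 * v - 9))

theorem th_dist {ε : ℝ} (hε : 0 < ε) (ω s v : ℝ) : |th ε ω s v - s| ≤ ε / 2 := by
  have h1 := cl_nonneg (1 - 10 * v)
  have h2 := cl_nonneg (10 * v - 9)
  have h3 := cl_le_one (1 - 10 * v)
  have h4 := cl_le_one (10 * v - 9)
  have h5 := Real.neg_one_le_sin (ω * s)
  have h6 := Real.sin_le_one (ω * s)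
  have h7 : cl (1 - 10 * v) = 0 ∨ cl (10 * v - 9) = 0 := by
    by_contra hcon
    push Not at hcon
    have e1 := cl_pos (lt_of_le_of_ne h1 (Ne.symm hcon.1))
    have e2 := cl_pos (lt_of_le_of_ne h2 (Ne.symm hcon.2))
    linarith
  have h8 : |(1 - cl (1 - 10 * v) - cl (10 * v - 9)) * Real.sin (ω * s) +
    cl (1 - 10 * v) - cl (10 * v - 9)| ≤ 1 := by
    rw [abs_le]
    rcases h7 with h | h <;> rw [h] <;> constructor <;> nlinarith
  unfold th
  rw [add_sub_cancel_left, abs_mul, abs_of_pos (by positivity : 0 < ε / 2)]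
  nlinarith

theorem th_low (ε ω s : ℝ) {v : ℝ} (hv : v ≤ 0) : th ε ω s v = s + ε / 2 := by
  unfold th
  rw [cl_one (by linarith), cl_zero (by linarith)]
  ring

theorem th_high (ε ω s : ℝ) {v : ℝ} (hv : 1 ≤ v) : th ε ω s v = s - ε / 2 := by
  unfold th
  rw [cl_zero (by linarith), cl_one (by linarith)]
  ring

end Pool.Agent.N491.HP
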