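import Mathlib
import Pool.Agent.N491.HP.Free

set_option autoImplicit false

open Set Topology

namespace Pool.Agent.N491.HP

theorem crossing {s : unitInterval → ℝ} (hs : Continuous s) {v : ℕ → ℝ} (hv : Monotone v) {m : ℕ}
    (h0 : s 0 < v 0) (h1 : v m ≤ s 1) :
    ∃ τ : ℕ → unitInterval, Monotone τ ∧ ∀ j ≤ m, s (τ j) = v j := by
  have hex : ∀ j : ℕ, ∃ t, IsLeast {t : unitInterval | v (min j m) ≤ s t} t := by
    intro j
    refine IsCompact.exists_isLeast ?_ ⟨1, ?_⟩
    · exact (isClosed_le continuous_const hs).isCompact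
    · exact (hv (min_le_right _ _)).trans h1
  choose τ hτ using hex
  refine ⟨τ, ?_, ?_⟩
  · intro j k hjk
    refine (hτ j).2 ?_
    have h2 : v (min k m) ≤ s (τ k) := (hτ k).1
    show v (min j m) ≤ s (τ k)
    exact (hv (min_le_min_right m hjk)).trans h2
  · intro j hj
    have h2 : v (min j m) ≤ s (τ j) := (hτ j).1
    rw [min_eq_left hj] at h2
    have h3 : s 0 < v j := h0.trans_le (hv (Nat.zero_le j))
    have hpre : IsPreconnected (s '' Iic (τ j)) := isPreconnected_Iic.image _ hs.continuousOn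
    obtain ⟨t, ht, hst⟩ := hpre.Icc_subset ⟨0, mem_Iic.2 bot_le, rfl⟩ ⟨τ j, mem_Iic.2 le_rfl, rfl⟩
      ⟨h3.le, h2⟩
    have h4 : τ j ≤ t := (hτ j).2 (by
      show v (min j m) ≤ s t
      rw [min_eq_left hj, hst])
    have h5 : t = τ j := le_antisymm ht h4
    rw [← h5, hst]

theorem sin_line (ω : ℝ) (hω : 0 < ω) (k : ℤ) :
    Real.sin (ω * ((Real.pi / 2 + k * Real.pi) / ω)) = (-1) ^ k := by
  have : ω * ((Real.pi / 2 + k * Real.pi) / ω) = k * Real.pi + Real.pi / 2 := by
    field_simp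
    ring
  rw [this, Real.sin_add_pi_div_two, Real.cos_int_mul_pi]

theorem main_osc {s w : unitInterval → ℝ} (hs : Continuous s) {ε a b : ℝ}
    (hε : 0 < ε) (hab : a < b) (m : ℕ) {ω : ℝ} (hω : ω = 2 * Real.pi * (m + 1) / ε) {c : ℝ}
    (hc : c = th ε ω (s 0) ((w 0 - a) / (b - a)))
    (hosc : ∀ t, |th ε ω (s t) ((w t - a) / (b - a)) - c| ≤ ε / 8)
    (h0 : w 0 ≤ a) (h1 : b ≤ w 1) : Osc w (4 / 5 * (b - a)) m := by
  have hpi := Real.pi_pos
  have hωpos : 0 < ω := by rw [hω]; positivity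
  have hba : 0 < b - a := sub_pos.2 hab
  have hs0 : s 0 = c - ε / 2 := by
    rw [th_low] at hc
    · linarith
    · exact div_nonpos_of_nonpos_of_nonneg (by linarith) hba.le
  have hs1 : c + ε / 2 - ε / 8 ≤ s 1 := by
    have := hosc 1
    rw [th_high] at this
    · have := (abs_le.1 this).1
      linarith
    · rw [le_div_iff₀ hba]; linarith
  set J : ℤ := ⌈(ω * (c - ε / 4) - Real.pi / 2) / Real.pi⌉ with hJ
  have hJ1 : ω * (c - ε / 4) - Real.pi / 2 ≤ J * Real.pi := by
    have := Int.le_ceil ((ω * (c - ε / 4) - Real.pi / 2) / Real.pi)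
    rw [div_le_iff₀ hpi] at this
    exact this
  have hJ2 : (J : ℝ) * Real.pi ≤ ω * (c - ε / 4) - Real.pi / 2 + Real.pi := by
    have h := (Int.ceil_lt_add_one ((ω * (c - ε / 4) - Real.pi / 2) / Real.pi)).le
    rw [← hJ] at h
    have := mul_le_mul_of_nonneg_right h hpi.le
    rw [add_mul, div_mul_cancel₀ _ hpi.ne'] at this
    linarith
  set v : ℕ → ℝ := fun j => (Real.pi / 2 + ((J + j : ℤ) : ℝ) * Real.pi) / ω with hv
  have hωε : ω * (ε / 2) = Real.pi * (m + 1) := by
    rw [hω]; field_simp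
  have hvlow : ∀ j, c - ε / 4 ≤ v j := by
    intro j
    rw [hv]
    simp only
    rw [le_div_iff₀ hωpos]
    push_cast
    have : (0:ℝ) ≤ j * Real.pi := by positivity
    nlinarith
  have hvhigh : ∀ j ≤ m, v j ≤ c + ε / 4 := by
    intro j hj
    rw [hv]
    simp only
    rw [div_le_iff₀ hωpos]
    push_cast
    have h3 : (j:ℝ) * Real.pi ≤ m * Real.pi := by
      apply mul_le_mul_of_nonneg_right _ hpi.le
      exact_mod_cast hj
    nlinarith
  have hvm : Monotone v := by
    intro j k hjk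
    rw [hv]
    simp only
    apply div_le_div_of_nonneg_right _ hωpos.le
    push_cast
    have h3 : (j:ℝ) * Real.pi ≤ k * Real.pi := by
      apply mul_le_mul_of_nonneg_right _ hpi.le
      exact_mod_cast hjk
    nlinarith
  obtain ⟨τ, hτm, hτ⟩ := crossing hs hvm (m := m) (by rw [hs0]; linarith [hvlow 0])
    (by linarith [hvhigh m le_rfl])
  refine ⟨τ, hτm, ?_⟩
  -- the two kinds of lines
  have hline : ∀ j ≤ m, (Even (J + j) → 9 / 10 ≤ (w (τ j) - a) / (b - a)) ∧
      (¬ Even (J + j) → (w (τ j) - a) / (b - a) ≤ 1 / 10) := by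
    intro j hj
    have hsin : Real.sin (ω * s (τ j)) = (-1) ^ (J + j) := by
      rw [hτ j hj, hv]
      simp only
      exact sin_line ω hωpos (J + j)
    have ho := abs_le.1 (hosc (τ j))
    have hl := hvlow j
    have hh := hvhigh j hj
    constructor
    · intro he
      rw [he.neg_one_zpow] at hsin
      unfold th at ho
      rw [hsin, hτ j hj] at ho
      have h5 : 1 / 8 ≤ cl (10 * ((w (τ j) - a) / (b - a)) - 9) := by
        by_contra hcon
        push Not at hcon
        nlinarith [ho.1, ho.2]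
      have := cl_pos (lt_of_lt_of_le (by norm_num) h5)
      linarith
    · intro he
      rw [Int.not_even_iff_odd] at he
      rw [he.neg_one_zpow] at hsin
      unfold th at ho
      rw [hsin, hτ j hj] at ho
      have h5 : 1 / 8 ≤ cl (1 - 10 * ((w (τ j) - a) / (b - a))) := by
        by_contra hcon
        push Not at hcon
        nlinarith [ho.1, ho.2]
      have := cl_pos (lt_of_lt_of_le (by norm_num) h5)
      linarith
  intro j hj
  have hA := hline j hj.le
  have hB := hline (j + 1) hj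
  have hpar : Even (J + ((j + 1 : ℕ) : ℤ)) ↔ ¬ Even (J + (j : ℤ)) := by
    push_cast
    rw [← add_assoc, Int.even_add_one]
  by_cases he : Even (J + (j : ℤ))
  · have h5 := hA.1 he
    have h6 := hB.2 (by rw [hpar]; exact not_not.2 he)
    rw [le_div_iff₀ hba] at h5
    rw [div_le_iff₀ hba] at h6
    rw [le_abs]
    left
    linarith
  · have h5 := hA.2 he
    have h6 := hB.1 (hpar.2 he)
    rw [div_le_iff₀ hba] at h5
    rw [le_div_iff₀ hba] at h6
    rw [le_abs]
    right
    linarith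

theorem dense_OO (i : ℕ) {a b : ℝ} (hab : a < b) (m : ℕ) : Dense (OO i a b m) := by
  rw [Metric.dense_iff]
  intro f ε hε
  have hba : 0 < b - a := sub_pos.2 hab
  set ω : ℝ := 2 * Real.pi * (m + 1) / ε with hω
  let f' : C(Q, ℝ) := ⟨fun x => th ε ω (f x) (((x i : ℝ) - a) / (b - a)), by
    unfold th
    have := cl_cont
    fun_prop⟩
  refine ⟨f', ?_, ?_⟩
  · rw [Metric.mem_ball]
    refine lt_of_le_of_lt ((ContinuousMap.dist_le (by positivity : 0 ≤ ε / 2)).2 fun x => ?_)
      (half_lt_self hε)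
    rw [Real.dist_eq]
    exact th_dist hε _ _ _
  · refine ⟨ε / 8, by positivity, fun γ hγ hosc h0 h1 => ?_⟩
    exact main_osc (s := fun t => f (γ t)) (w := fun t => ((γ t i : unitInterval) : ℝ))
      (by fun_prop) hε hab m hω rfl (fun t => hosc t 0) h0 h1

/-- **Path-free level sets.** -/
theorem exists_free : ∃ f : C(Q, ℝ), (∀ x : Q, |f x - x 0| < 1 / 4) ∧
    ∀ c : ℝ, ∀ γ : unitInterval → Q, Continuous γ → (∀ t, f (γ t) = c) → γ 0 = γ 1 := by
  have hdense : Dense (⋂ q : {q : (ℕ × ℚ × ℚ) × ℕ // q.1.2.1 < q.1.2.2},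
      OO q.1.1.1 q.1.1.2.1 q.1.1.2.2 q.1.2) := by
    refine dense_iInter_of_isOpen (fun q => isOpen_OO _ _ _ _) (fun q => dense_OO _ ?_ _)
    exact_mod_cast q.2
  obtain ⟨f, hf1, hf2⟩ := Metric.dense_iff.1 hdense ⟨fun x => (x 0 : ℝ), by fun_prop⟩ (1 / 4)
    (by norm_num)
  rw [mem_iInter] at hf2
  have main : ∀ c : ℝ, ∀ γ : unitInterval → Q, Continuous γ → (∀ t, f (γ t) = c) →
      ∀ i, γ 1 i ≤ γ 0 i := by
    intro c γ hγ hc i
    by_contra hcon
    push Not at hcon
    have hcon' : ((γ 0 i : unitInterval) : ℝ) < (γ 1 i : unitInterval) := hcon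
    obtain ⟨a, ha1, ha2⟩ := exists_rat_btwn hcon'
    obtain ⟨b, hb1, hb2⟩ := exists_rat_btwn ha2
    have hab : a < b := by exact_mod_cast hb1
    have hab' : (0:ℝ) < 4 / 5 * ((b:ℝ) - a) := by linarith
    obtain ⟨m, hm⟩ := not_osc (w := fun t => ((γ t i : unitInterval) : ℝ)) (by fun_prop) hab'
    apply hm
    obtain ⟨η, hη, h⟩ := hf2 ⟨((i, a, b), m), hab⟩
    exact h γ hγ (fun s t => by rw [hc, hc, sub_self, abs_zero]; exact hη.le) ha1.le hb2.le
  refine ⟨f, ?_, ?_⟩
  · intro x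
    have := lt_of_le_of_lt (ContinuousMap.dist_apply_le_dist (f := f) x) hf1
    rwa [Real.dist_eq] at this
  · intro c γ hγ hc
    funext i
    refine le_antisymm ?_ (main c γ hγ hc i)
    have := main c (γ ∘ unitInterval.symm) (hγ.comp unitInterval.continuous_symm)
      (fun t => hc _) i
    simpa using this

end Pool.Agent.N491.HP
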