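import Mathlib
import Pool.Agent.N491.HP.Free2
import Pool.Agent.R292.CovDim
import Pool.Agent.Helper475.Miranda

/-!
# The separator is infinite-dimensional
-/

set_option autoImplicit false

open Set Topology Pool.Agent.R292.CovDim

namespace Pool.Agent.N491.HP

/-- the face embedding of a finite cube into the Hilbert cube -/
noncomputable def emb (N : ℕ) (z : Fin N → ℝ) : Q :=
  fun i => if h : i < N then projIcc (0:ℝ) 1 zero_le_one (z ⟨i, h⟩) else 0

theorem emb_cont (N : ℕ) : Continuous (emb N) := by
  refine continuous_pi fun i => ?_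
  unfold emb
  by_cases h : i < N
  · simp only [h, dite_true]
    exact continuous_projIcc.comp (continuous_apply _)
  · simp only [h, dite_false]
    exact continuous_const

theorem emb_apply {N : ℕ} {z : Fin N → ℝ} (hz : ∀ i, 0 ≤ z i ∧ z i ≤ 1) (i : Fin N) :
    ((emb N z i : unitInterval) : ℝ) = z i := by
  unfold emb
  simp only [i.2, dite_true, Fin.eta]
  rw [projIcc_of_mem zero_le_one (show z i ∈ Icc (0:ℝ) 1 from hz i)]

/-- a compact space mapping onto a set separating opposite faces of the Hilbert cube, injectively on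
a closed set that still covers the separator, has infinite covering dimension -/
theorem not_dimLE {X : Type} [MetricSpace X] [CompactSpace X] {e : X → Q} (he : Continuous e)
    {Z : Set X} (hZ : IsClosed Z) (hinj : InjOn e Z) {f : C(Q, ℝ)}
    (hf : ∀ x : Q, |f x - x 0| < 1 / 4) (hs : ∀ y : Q, f y = 1 / 2 → ∃ x ∈ Z, e x = y) (n : ℕ) :
    ¬ DimLE X n := by
  intro hdim
  -- uniform continuity of the coordinates
  have huc : ∀ j : ℕ, ∃ δ : ℝ, 0 < δ ∧ ∀ x x' : X, dist x x' ≤ δ →
      |((e x j : unitInterval) : ℝ) - (e x' j : unitInterval)| ≤ 1 / 4 := by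
    intro j
    have h1 : UniformContinuous fun x : X => ((e x j : unitInterval) : ℝ) :=
      CompactSpace.uniformContinuous_of_continuous (by fun_prop)
    obtain ⟨δ, hδ, h⟩ := Metric.uniformContinuous_iff.1 h1 (1 / 4) (by norm_num)
    refine ⟨δ / 2, by positivity, fun x x' hx => ?_⟩
    have := h (lt_of_le_of_lt hx (half_lt_self hδ))
    rw [Real.dist_eq] at this
    exact this.le
  choose δ hδ huc using huc
  set ε : ℝ := (Finset.range (n + 3)).inf' ⟨0, by simp⟩ δ with hε
  have hεpos : 0 < ε := by
    rw [hε, Finset.lt_inf'_iff]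
    exact fun j _ => hδ j
  have hεle : ∀ j < n + 3, ε ≤ δ j := fun j hj => Finset.inf'_le _ (by simpa using hj)
  obtain ⟨κ, hκ, F, hF1, hF2, hF3, hF4⟩ := col_of_dimLE hdim ε hεpos (n + 2)
  -- images of the members
  set KK : Fin (n + 2) → κ → Set Q := fun j a => e '' (F j a ∩ Z) with hKK
  have hKc : ∀ j a, IsClosed (KK j a) := fun j a =>
    (((hF1 j a).inter_right hZ).image he).isClosed
  have hKd : ∀ j a b, a ≠ b → Disjoint (KK j a) (KK j b) := by
    intro j a b hab
    rw [Set.disjoint_left]
    rintro _ ⟨x, ⟨hxF, hxZ⟩, rfl⟩ ⟨x', ⟨hxF', hxZ'⟩, hxx⟩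
    have := hinj hxZ' hxZ hxx
    subst this
    exact Set.disjoint_left.1 (hF2 j a b hab) hxF hxF'
  have hKosc : ∀ j a, ∀ y ∈ KK j a, ∀ y' ∈ KK j a,
      |((y (j + 1) : unitInterval) : ℝ) - (y' (j + 1) : unitInterval)| ≤ 1 / 4 := by
    rintro j a _ ⟨x, ⟨hxF, hxZ⟩, rfl⟩ _ ⟨x', ⟨hxF', hxZ'⟩, rfl⟩
    refine huc _ x x' ((hF3 j a x hxF x' hxF').trans (hεle _ ?_))
    have := j.2
    omega
  have hex : ∀ j : Fin (n + 2), ∃ χ : C(Q, ℝ),
      (∀ y : Q, ((y (j + 1) : unitInterval) : ℝ) = 0 → χ y = 0) ∧
      (∀ y : Q, ((y (j + 1) : unitInterval) : ℝ) = 1 → χ y = 1) ∧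
      ∀ a, ∀ y ∈ KK j a, χ y = 0 ∨ χ y = 1 := by
    intro j
    classical
    let high : κ → Prop := fun a => ∀ y ∈ KK j a, 1 / 4 ≤ ((y (j + 1) : unitInterval) : ℝ)
    have hlow : ∀ a, ¬ high a → ∀ y ∈ KK j a, ((y (j + 1) : unitInterval) : ℝ) ≤ 1 / 2 := by
      intro a ha y hy
      simp only [high, not_forall, not_le] at ha
      obtain ⟨y', hy', hlt⟩ := ha
      have := (abs_le.1 (hKosc j a y hy y' hy')).2
      linarith
    set Ap : Set Q := (⋃ a ∈ {a | high a}, KK j a) ∪ {y | ((y (j + 1) : unitInterval) : ℝ) = 1}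
      with hAp
    set Am : Set Q := (⋃ a ∈ {a | ¬ high a}, KK j a) ∪ {y | ((y (j + 1) : unitInterval) : ℝ) = 0}
      with hAm
    have hApc : IsClosed Ap := by
      refine IsClosed.union ?_ (isClosed_eq (by fun_prop) continuous_const)
      exact (Set.toFinite _).isClosed_biUnion fun a _ => hKc j a
    have hAmc : IsClosed Am := by
      refine IsClosed.union ?_ (isClosed_eq (by fun_prop) continuous_const)
      exact (Set.toFinite _).isClosed_biUnion fun a _ => hKc j a
    have hdis : Disjoint Am Ap := by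
      rw [Set.disjoint_left]
      rintro y (h1 | h1) (h2 | h2)
      · simp only [mem_iUnion, exists_prop] at h1 h2
        obtain ⟨a, ha, hya⟩ := h1
        obtain ⟨b, hb, hyb⟩ := h2
        have hab : a ≠ b := by
          rintro rfl
          exact ha hb
        exact Set.disjoint_left.1 (hKd j a b hab) hya hyb
      · simp only [mem_iUnion, exists_prop] at h1
        obtain ⟨a, ha, hya⟩ := h1
        have h3 := hlow a ha y hya
        have h4 : ((y (j + 1) : unitInterval) : ℝ) = 1 := h2
        linarith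
      · simp only [mem_iUnion, exists_prop] at h2
        obtain ⟨b, hb, hyb⟩ := h2
        have h3 := hb y hyb
        have h4 : ((y (j + 1) : unitInterval) : ℝ) = 0 := h1
        linarith
      · have h3 : ((y (j + 1) : unitInterval) : ℝ) = 0 := h1
        have h4 : ((y (j + 1) : unitInterval) : ℝ) = 1 := h2
        linarith
    obtain ⟨χ, hχ0, hχ1, -⟩ := exists_continuous_zero_one_of_isClosed hAmc hApc hdis
    refine ⟨χ, fun y hy => hχ0 (Or.inr hy), fun y hy => hχ1 (Or.inr hy), fun a y hy => ?_⟩
    by_cases ha : high a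
    · right
      exact hχ1 (Or.inl (mem_biUnion (show a ∈ {a | high a} from ha) hy))
    · left
      exact hχ0 (Or.inl (mem_biUnion (show a ∈ {a | ¬ high a} from ha) hy))
  choose χ hχ0 hχ1 hχK using hex
  have hec := emb_cont (n + 3)
  obtain ⟨z, hz, hz0⟩ := Pool.Agent.Helper475.Miranda.poincare_miranda (n + 3)
    (fun z => Fin.cons (f (emb (n + 3) z) - 1 / 2)
      (fun j : Fin (n + 2) => 2 * χ j (emb (n + 3) z) - 1))
    (by
      refine Continuous.continuousOn (continuous_pi fun i => ?_)
      refine Fin.cases ?_ (fun j => ?_) i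
      · simp only [Fin.cons_zero]
        fun_prop
      · simp only [Fin.cons_succ]
        fun_prop)
    (by
      intro x hx i
      refine Fin.cases ?_ (fun j => ?_) i
      · intro h0
        simp only [Fin.cons_zero]
        have h1 := hf (emb (n + 3) x)
        have h2 := emb_apply hx 0
        rw [h0] at h2
        have h3 : ((emb (n + 3) x 0 : unitInterval) : ℝ) = 0 := h2
        rw [h3] at h1
        have := (abs_lt.1 h1).2
        linarith
      · intro h0
        simp only [Fin.cons_succ]
        have h2 := emb_apply hx j.succ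
        rw [h0] at h2
        have h3 : ((emb (n + 3) x ((j : ℕ) + 1) : unitInterval) : ℝ) = 0 := h2
        rw [hχ0 j _ h3]
        norm_num)
    (by
      intro x hx i
      refine Fin.cases ?_ (fun j => ?_) i
      · intro h0
        simp only [Fin.cons_zero]
        have h1 := hf (emb (n + 3) x)
        have h2 := emb_apply hx 0
        rw [h0] at h2
        have h3 : ((emb (n + 3) x 0 : unitInterval) : ℝ) = 1 := h2
        rw [h3] at h1
        have := (abs_lt.1 h1).1
        linarith
      · intro h0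
        simp only [Fin.cons_succ]
        have h2 := emb_apply hx j.succ
        rw [h0] at h2
        have h3 : ((emb (n + 3) x ((j : ℕ) + 1) : unitInterval) : ℝ) = 1 := h2
        rw [hχ1 j _ h3]
        norm_num)
  have h0 : f (emb (n + 3) z) = 1 / 2 := by
    have := congrFun hz0 0
    simp only [Fin.cons_zero, Pi.zero_apply] at this
    linarith
  obtain ⟨x, hxZ, hxe⟩ := hs _ h0
  -- `x` lies in a member of some family
  have hj : ∃ j, x ∈ ⋃ a, F j a := by
    by_contra hcon
    push Not at hcon
    have h1 := hF4 x trivial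
    have h2 : {j | x ∉ ⋃ a, F j a} = univ := by
      ext j
      simpa using hcon j
    rw [h2, ncard_univ, Nat.card_fin] at h1
    omega
  obtain ⟨j, hj⟩ := hj
  obtain ⟨a, ha⟩ := mem_iUnion.1 hj
  have h3 := hχK j a (emb (n + 3) z) ⟨x, ⟨ha, hxZ⟩, hxe⟩
  have h4 := congrFun hz0 j.succ
  simp only [Fin.cons_succ, Pi.zero_apply] at h4
  rcases h3 with h3 | h3 <;> rw [h3] at h4 <;> norm_num at h4

end Pool.Agent.N491.HP
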