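import Mathlib
import Pool.Agent.N491.HP.Jan

/-!
# Components of level sets
-/

set_option autoImplicit false

open Set Topology

namespace Pool.Agent.N491.HP

/-- component of the level set of `u` through `z` -/
def LC {B : Type*} [TopologicalSpace B] (u : B → ℝ) (z : B) : Set B :=
  connectedComponentIn (u ⁻¹' {u z}) z

section basic

variable {B : Type*} [TopologicalSpace B] {u : B → ℝ}

theorem LC_self (z : B) : z ∈ LC u z := mem_connectedComponentIn rfl

theorem LC_preconn (z : B) : IsPreconnected (LC u z) := isPreconnected_connectedComponentIn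

theorem LC_u {z x : B} (hx : x ∈ LC u z) : u x = u z := by
  have h : x ∈ u ⁻¹' {u z} := connectedComponentIn_subset _ _ hx
  exact h

theorem LC_eq {z x : B} (hx : x ∈ LC u z) : LC u x = LC u z := by
  have h1 := connectedComponentIn_eq hx
  unfold LC
  rw [LC_u hx]
  exact h1.symm

theorem LC_closed (hu : Continuous u) (z : B) : IsClosed (LC u z) := by
  have hsub : closure (LC u z) ⊆ u ⁻¹' {u z} :=
    closure_minimal (connectedComponentIn_subset _ _) (isClosed_singleton.preimage hu)
  have h1 : closure (LC u z) ⊆ LC u z :=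
    (isPreconnected_connectedComponentIn.closure).subset_connectedComponentIn
      (subset_closure (mem_connectedComponentIn rfl)) hsub
  exact isClosed_of_closure_subset h1

theorem LC_sub {z : B} {D : Set B} (hD : IsPreconnected D) (hz : z ∈ D)
    (h : ∀ w ∈ D, u w = u z) : D ⊆ LC u z :=
  hD.subset_connectedComponentIn hz h

theorem LC_disj {z z' : B} (h : z' ∉ LC u z) : Disjoint (LC u z) (LC u z') := by
  rw [Set.disjoint_left]
  intro w hw hw'
  apply h
  rw [← LC_eq hw, LC_eq hw']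
  exact LC_self z'

end basic

/-- Points outside the level component can only be reached by varying `u` by a definite amount. -/
theorem lev_gap {B : Type*} [MetricSpace B] [CompactSpace B] {u : B → ℝ} (hu : Continuous u)
    {x p : B} (hp : p ∉ LC u x) :
    ∃ η : ℝ, 0 < η ∧ ∀ D : Set B, IsPreconnected D → x ∈ D → p ∈ D → ∃ w ∈ D, η ≤ |u w - u x| := by
  by_cases hpx : u p = u x
  swap
  · exact ⟨|u p - u x|, abs_pos.2 (sub_ne_zero.2 hpx), fun D _ _ hpD => ⟨p, hpD, le_refl _⟩⟩
  set F : Set B := u ⁻¹' {u x} with hF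
  have hFc : IsClosed F := isClosed_singleton.preimage hu
  have hxF : x ∈ F := rfl
  have hpF : p ∈ F := hpx
  have : CompactSpace F := isCompact_iff_compactSpace.1 hFc.isCompact
  have h1 : (⟨p, hpF⟩ : F) ∉ connectedComponent (⟨x, hxF⟩ : F) := by
    intro h
    apply hp
    unfold LC
    rw [connectedComponentIn_eq_image hxF]
    exact ⟨_, h, rfl⟩
  rw [connectedComponent_eq_iInter_isClopen] at h1
  simp only [mem_iInter, not_forall] at h1
  obtain ⟨⟨s, hs, hxs⟩, hps⟩ := h1
  have hc1 : IsClosed ((Subtype.val : F → B) '' s) :=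
    hFc.isClosedEmbedding_subtypeVal.isClosedMap _ hs.1
  have hc2 : IsClosed ((Subtype.val : F → B) '' sᶜ) :=
    hFc.isClosedEmbedding_subtypeVal.isClosedMap _ hs.compl.1
  have hdis : Disjoint ((Subtype.val : F → B) '' s) ((Subtype.val : F → B) '' sᶜ) := by
    rw [Set.disjoint_left]
    rintro _ ⟨a, ha, rfl⟩ ⟨b, hb, hab⟩
    have : b = a := Subtype.ext hab
    subst this
    exact hb ha
  obtain ⟨O1, O2, hO1, hO2, h1s, h2s, hO⟩ := normal_separation hc1 hc2 hdis
  have hFO : F ⊆ O1 ∪ O2 := by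
    intro w hw
    by_cases hws : (⟨w, hw⟩ : F) ∈ s
    · exact Or.inl (h1s ⟨_, hws, rfl⟩)
    · exact Or.inr (h2s ⟨_, hws, rfl⟩)
  have hK : IsCompact (O1 ∪ O2)ᶜ := (hO1.union hO2).isClosed_compl.isCompact
  have key : ∃ η : ℝ, 0 < η ∧ ∀ w ∈ (O1 ∪ O2)ᶜ, η ≤ |u w - u x| := by
    rcases (O1 ∪ O2)ᶜ.eq_empty_or_nonempty with he | hne
    · exact ⟨1, one_pos, fun w hw => by rw [he] at hw; exact hw.elim⟩
    · obtain ⟨w0, hw0, hmin⟩ := hK.exists_isMinOn hne
        (f := fun w => |u w - u x|) (by fun_prop)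
      refine ⟨|u w0 - u x|, ?_, fun w hw => hmin hw⟩
      apply abs_pos.2
      intro h
      apply hw0
      exact hFO (by show u w0 = u x; linarith)
  obtain ⟨η, hη, hmin⟩ := key
  refine ⟨η, hη, fun D hD hxD hpD => ?_⟩
  by_contra hcon
  push Not at hcon
  have hsub : D ⊆ O1 ∪ O2 := by
    intro w hw
    by_contra hw2
    exact absurd (hmin w hw2) (not_le.2 (hcon w hw))
  obtain ⟨q, -, hq1, hq2⟩ := hD O1 O2 hO1 hO2 hsub
    ⟨x, hxD, h1s ⟨_, hxs, rfl⟩⟩ ⟨p, hpD, h2s ⟨⟨p, hpF⟩, hps, rfl⟩⟩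
  exact Set.disjoint_left.1 hO hq1 hq2

/-- the relation of lying in the same level component is closed -/
theorem LC_rel_closed {B : Type*} [MetricSpace B] [CompactSpace B] [LocallyConnectedSpace B]
    {u : B → ℝ} (hu : Continuous u) : IsClosed {q : B × B | q.1 ∈ LC u q.2} := by
  rw [← isOpen_compl_iff, isOpen_iff_mem_nhds]
  rintro ⟨p, x⟩ hq
  have hp : p ∉ LC u x := hq
  obtain ⟨η, hη, hgap⟩ := lev_gap hu hp
  obtain ⟨V, ⟨hVo, hpV, hVc⟩, hV⟩ := (LocallyConnectedSpace.open_connected_basis p).mem_iff.1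
    ((Metric.continuous_iff'.1 hu p (η / 4) (by positivity)))
  obtain ⟨W, ⟨hWo, hxW, hWc⟩, hW⟩ := (LocallyConnectedSpace.open_connected_basis x).mem_iff.1
    ((Metric.continuous_iff'.1 hu x (η / 4) (by positivity)))
  refine Filter.mem_of_superset (prod_mem_nhds (hVo.mem_nhds hpV) (hWo.mem_nhds hxW)) ?_
  rintro ⟨p', x'⟩ ⟨hp', hx'⟩ hmem
  have hmem' : p' ∈ LC u x' := hmem
  simp only at hp' hx'
  have hD : IsPreconnected (V ∪ LC u x' ∪ W) := by
    refine IsPreconnected.union x' (Or.inr (LC_self x')) hx' ?_ hWc.isPreconnected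
    exact IsPreconnected.union p' hp' hmem' hVc.isPreconnected (LC_preconn x')
  obtain ⟨w, hw, hle⟩ := hgap _ hD (Or.inr hxW) (Or.inl (Or.inl hpV))
  have hV' : ∀ w ∈ V, |u w - u p| < η / 4 := fun w hw => by
    have := hV hw
    simpa [Real.dist_eq] using this
  have hW' : ∀ w ∈ W, |u w - u x| < η / 4 := fun w hw => by
    have := hW hw
    simpa [Real.dist_eq] using this
  have h1 := abs_lt.1 (hV' p' hp')
  have h2 := abs_lt.1 (hW' x' hx')
  have h3 := LC_u hmem'
  rcases hw with (hw | hw) | hw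
  · have h4 := abs_lt.1 (hV' w hw)
    have : |u w - u x| < η := by rw [abs_lt]; constructor <;> linarith [h4.1, h4.2, h1.1, h1.2, h2.1, h2.2]
    linarith
  · have h4 := LC_u hw
    have : |u w - u x| < η := by rw [h4]; linarith [hW' x' hx']
    linarith
  · have := hW' w hw
    linarith

/-- Two points in different level components are separated by a level component. -/
theorem lev_sep {B : Type*} [MetricSpace B] [CompactSpace B] [SimplyConnectedSpace B]
    [LocallyPathConnectedSpace B] {u : B → ℝ} (hu : Continuous u) {x p : B}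
    (hp : p ∉ LC u x) : ∃ z, Sep (LC u z) x p ∧ u z ≠ u x ∧ u z ≠ u p := by
  have key : ∃ A : Set B, IsClosed A ∧ (∀ a ∈ A, u a ≠ u x ∧ u a ≠ u p) ∧ Sep A x p ∧
      ∀ D ⊆ A, IsPreconnected D → ∀ a ∈ D, ∀ b ∈ D, u a = u b := by
    by_cases hpx : u p = u x
    · obtain ⟨η, hη, hgap⟩ := lev_gap hu hp
      refine ⟨{w | |u w - u x| = η}, isClosed_eq (by fun_prop) continuous_const, ?_, ?_, ?_⟩
      · intro a ha
        rw [mem_ofPred_eq] at ha
        have : u a ≠ u x := by
          intro h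
          rw [h] at ha
          simp at ha
          linarith
        exact ⟨this, by rw [hpx]; exact this⟩
      · intro D hD hxD hpD
        obtain ⟨w, hw, hle⟩ := hgap D hD hxD hpD
        have h1 : IsPreconnected ((fun w => |u w - u x|) '' D) :=
          hD.image _ (by fun_prop)
        have h2 := h1.Icc_subset (a := 0) (b := |u w - u x|) ⟨x, hxD, by simp⟩ ⟨w, hw, rfl⟩
        obtain ⟨y, hy, hy2⟩ := h2 ⟨hη.le, hle⟩
        exact ⟨y, hy, hy2⟩
      · intro D hDA hD a ha b hb
        by_contra hne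
        wlog hlt : u a < u b generalizing a b
        · exact this b hb a ha (fun h => hne h.symm) (lt_of_le_of_ne (not_lt.1 hlt) (fun h => hne h.symm))
        have ha' : |u a - u x| = η := hDA ha
        have hb' : |u b - u x| = η := hDA hb
        have h1 : IsPreconnected (u '' D) := hD.image _ hu.continuousOn
        have h2 := h1.Icc_subset ⟨a, ha, rfl⟩ ⟨b, hb, rfl⟩
        have hx3 : u x ∈ Icc (u a) (u b) := by
          rcases abs_eq hη.le |>.1 ha' with h | h <;> rcases abs_eq hη.le |>.1 hb' with h' | h' <;>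
            constructor <;> linarith
        obtain ⟨y, hy, hy2⟩ := h2 hx3
        have : |u y - u x| = η := hDA hy
        rw [hy2] at this
        simp at this
        linarith
    · obtain ⟨h, hh⟩ : ∃ h, (u x < h ∧ h < u p) ∨ (u p < h ∧ h < u x) := by
        rcases lt_or_gt_of_ne hpx with h | h
        · obtain ⟨c, hc⟩ := exists_between h
          exact ⟨c, Or.inr hc⟩
        · obtain ⟨c, hc⟩ := exists_between h
          exact ⟨c, Or.inl hc⟩
      refine ⟨u ⁻¹' {h}, isClosed_singleton.preimage hu, ?_, ?_, ?_⟩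
      · intro a ha
        have ha' : u a = h := ha
        rw [ha']
        rcases hh with h1 | h1
        · exact ⟨h1.1.ne', h1.2.ne⟩
        · exact ⟨h1.2.ne, h1.1.ne'⟩
      · intro D hD hxD hpD
        have h1 : IsPreconnected (u '' D) := hD.image _ hu.continuousOn
        rcases hh with h' | h'
        · obtain ⟨y, hy, hy2⟩ := h1.Icc_subset ⟨x, hxD, rfl⟩ ⟨p, hpD, rfl⟩ ⟨h'.1.le, h'.2.le⟩
          exact ⟨y, hy, hy2⟩
        · obtain ⟨y, hy, hy2⟩ := h1.Icc_subset ⟨p, hpD, rfl⟩ ⟨x, hxD, rfl⟩ ⟨h'.1.le, h'.2.le⟩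
          exact ⟨y, hy, hy2⟩
      · intro D hDA hD a ha b hb
        have ha' : u a = h := hDA ha
        have hb' : u b = h := hDA hb
        rw [ha', hb']
  obtain ⟨A, hA, hAne, hAs, hAl⟩ := key
  obtain ⟨C, hCA, hCc, hCp, hCs⟩ := janis hA (fun h => (hAne x h).1 rfl)
    (fun h => (hAne p h).2 rfl) hAs
  obtain ⟨z, hz, hzC⟩ := hCs univ isPreconnected_univ trivial trivial
  refine ⟨z, hCs.mono ?_, (hAne z (hCA hzC)).1, (hAne z (hCA hzC)).2⟩
  exact LC_sub hCp hzC (fun w hw => hAl C hCA hCp w hw z hzC)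

end Pool.Agent.N491.HP
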