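import Mathlib
import Pool.Agent.N491.HP.Lev

/-!
# Gates and the null-homotopy
-/

set_option autoImplicit false

open Set Topology

namespace Pool.Agent.N491.HP

/-- `z` is a gate of `b` with respect to `S` -/
def Gate {B : Type*} [TopologicalSpace B] (u : B → ℝ) (S : Set B) (b z : B) : Prop :=
  (LC u z ∩ S).Nonempty ∧
    ∀ D : Set B, IsPreconnected D → b ∈ D → (D ∩ S).Nonempty → (D ∩ LC u z).Nonempty

theorem gate_exists {B : Type*} [MetricSpace B] [CompactSpace B] [SimplyConnectedSpace B]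
    [LocallyPathConnectedSpace B] {u : B → ℝ} (hu : Continuous u) {S : Set B} (hS : IsCompact S)
    (hSc : IsPreconnected S) (hSn : S.Nonempty) (b : B) : ∃ z, Gate u S b z := by
  have hE := LC_rel_closed hu
  set N : Set B := {w | ∃ s ∈ S, w ∈ LC u s} with hN
  have hNc : IsClosed N := by
    have : N = Prod.fst '' ({q : B × B | q.1 ∈ LC u q.2} ∩ Prod.snd ⁻¹' S) := by
      ext w
      constructor
      · rintro ⟨s, hs, hw⟩
        exact ⟨(w, s), ⟨hw, hs⟩, rfl⟩
      · rintro ⟨⟨w', s⟩, ⟨hw, hs⟩, rfl⟩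
        exact ⟨s, hs, hw⟩
    rw [this]
    exact isClosedMap_fst_of_compactSpace _ (hE.inter (hS.isClosed.preimage continuous_snd))
  have hSN : S ⊆ N := fun s hs => ⟨s, hs, LC_self s⟩
  have hsat : ∀ w ∈ N, LC u w ⊆ N := by
    rintro w ⟨s, hs, hw⟩ y hy
    exact ⟨s, hs, by rw [← LC_eq hw]; exact hy⟩
  have hNp : IsPreconnected N := by
    obtain ⟨s0, hs0⟩ := hSn
    refine isPreconnected_of_forall s0 ?_
    rintro w ⟨s, hs, hw⟩
    refine ⟨LC u s ∪ S, ?_, Or.inr hs0, Or.inl hw, ?_⟩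
    · rintro y (hy | hy)
      · exact ⟨s, hs, hy⟩
      · exact hSN hy
    · exact IsPreconnected.union s (LC_self s) hs (LC_preconn s) hSc
  by_cases hb : b ∈ N
  · obtain ⟨s, hs, hbs⟩ := hb
    exact ⟨s, ⟨s, LC_self s, hs⟩, fun D _ hbD _ => ⟨b, hbD, hbs⟩⟩
  set F := connectedComponentIn Nᶜ b with hF
  have hfr : frontier F ⊆ N := by
    have := frontier_comp hNc.isOpen_compl (b := b)
    simpa using this
  obtain ⟨x1, hx1⟩ := frontier_comp_nonempty (O := Nᶜ) (b := b) hb
    (by obtain ⟨s0, hs0⟩ := hSn; exact ⟨s0, by simpa using hSN hs0⟩)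
  have hall : ∀ x2 ∈ frontier F, x2 ∈ LC u x1 := by
    intro x2 hx2
    by_contra hcon
    obtain ⟨z, hz, hz1, hz2⟩ := lev_sep hu hcon
    obtain ⟨q, hqN, hqz⟩ := hz N hNp (hfr hx1) (hfr hx2)
    have hzN : LC u z ⊆ N := by
      have := hsat q hqN
      rwa [LC_eq hqz] at this
    have hT : ({x1, x2} : Set B) ⊆ frontier (connectedComponentIn Nᶜ b) := by
      rintro y (rfl | rfl)
      · exact hx1
      · exact hx2
    obtain ⟨r, hr, hrz⟩ := hz _ (comp_union_frontier hT) (Or.inr (Or.inl rfl))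
      (Or.inr (Or.inr rfl))
    rcases hr with hr | hr | hr
    · exact connectedComponentIn_subset _ _ hr (hzN hrz)
    · rw [hr] at hrz
      exact hz1 (LC_u hrz).symm
    · rw [mem_singleton_iff] at hr
      rw [hr] at hrz
      exact hz2 (LC_u hrz).symm
  obtain ⟨s, hs, hxs⟩ := hfr hx1
  refine ⟨x1, ⟨s, by rw [LC_eq hxs]; exact LC_self s, hs⟩, ?_⟩
  rintro D hD hbD ⟨s', hs'D, hs'⟩
  obtain ⟨y, hy, hyF⟩ := meets_frontier (F := F) hD ⟨b, hbD, mem_connectedComponentIn hb⟩
    ⟨s', hs'D, fun h => connectedComponentIn_subset _ _ h (hSN hs')⟩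
  exact ⟨y, hy, hall y hyF⟩

theorem gate_unique {B : Type*} [MetricSpace B] [LocallyConnectedSpace B] [PreconnectedSpace B]
    {u : B → ℝ} (hu : Continuous u) {S : Set B} {b z z' : B} (hz : Gate u S b z)
    (hz' : Gate u S b z') : z' ∈ LC u z := by
  by_contra hcon
  have hd := LC_disj hcon
  have hb1 : b ∉ LC u z' := by
    intro h
    obtain ⟨w, hw1, hw2⟩ := hz.2 _ (LC_preconn z') h hz'.1
    exact Set.disjoint_left.1 hd hw2 hw1
  have hb2 : b ∉ LC u z := by
    intro h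
    obtain ⟨w, hw1, hw2⟩ := hz'.2 _ (LC_preconn z) h hz.1
    exact Set.disjoint_left.1 hd hw1 hw2
  have hO : IsOpen (LC u z ∪ LC u z')ᶜ :=
    ((LC_closed hu z).union (LC_closed hu z')).isOpen_compl
  obtain ⟨y, hy⟩ := frontier_comp_nonempty (O := (LC u z ∪ LC u z')ᶜ) (b := b)
    (by rintro (h | h); exacts [hb2 h, hb1 h]) ⟨z, fun h => h (Or.inl (LC_self z))⟩
  have hy2 : y ∈ LC u z ∪ LC u z' := by
    have h := frontier_comp hO hy
    rw [compl_compl] at h
    exact h
  have hpre := comp_union_frontier (B := B) (O := (LC u z ∪ LC u z')ᶜ) (b := b) (T := {y})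
    (by rintro x rfl; exact hy)
  have hbF : b ∈ connectedComponentIn (LC u z ∪ LC u z')ᶜ b :=
    mem_connectedComponentIn (by rintro (h | h); exacts [hb2 h, hb1 h])
  rcases hy2 with hy2 | hy2
  · have hD := IsPreconnected.union y (Or.inr rfl) hy2 hpre (LC_preconn z)
    obtain ⟨w, hw1, hw2⟩ := hz'.2 _ hD (Or.inl (Or.inl hbF))
      (by obtain ⟨s, hs1, hs2⟩ := hz.1; exact ⟨s, Or.inr hs1, hs2⟩)
    rcases hw1 with (hw1 | hw1) | hw1
    · exact connectedComponentIn_subset _ _ hw1 (Or.inr hw2)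
    · rw [mem_singleton_iff] at hw1
      rw [hw1] at hw2
      exact Set.disjoint_left.1 hd hy2 hw2
    · exact Set.disjoint_left.1 hd hw1 hw2
  · have hD := IsPreconnected.union y (Or.inr rfl) hy2 hpre (LC_preconn z')
    obtain ⟨w, hw1, hw2⟩ := hz.2 _ hD (Or.inl (Or.inl hbF))
      (by obtain ⟨s, hs1, hs2⟩ := hz'.1; exact ⟨s, Or.inr hs1, hs2⟩)
    rcases hw1 with (hw1 | hw1) | hw1
    · exact connectedComponentIn_subset _ _ hw1 (Or.inl hw2)
    · rw [mem_singleton_iff] at hw1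
      rw [hw1] at hw2
      exact Set.disjoint_left.1 hd hw2 hy2
    · exact Set.disjoint_left.1 hd hw2 hw1

section hom

variable {B : Type*} [MetricSpace B] [CompactSpace B] [SimplyConnectedSpace B]
    [LocallyPathConnectedSpace B] {u : B → ℝ}

/-- the trace of `b` under a contraction up to time `t` -/
def Tr (σ : B × unitInterval → B) (b : B) (t : unitInterval) : Set B :=
  {x | ∃ τ : unitInterval, τ ≤ t ∧ x = σ (b, τ)}

theorem gate_rel_closed (hu : Continuous u) {σ : B × unitInterval → B} (hσ : Continuous σ) :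
    IsClosed {q : (B × unitInterval) × B | Gate u (Tr σ q.1.1 q.1.2) q.1.1 q.2} := by
  have hE := LC_rel_closed hu
  have h1 : IsClosed {q : (B × unitInterval) × B | (LC u q.2 ∩ Tr σ q.1.1 q.1.2).Nonempty} := by
    have : {q : (B × unitInterval) × B | (LC u q.2 ∩ Tr σ q.1.1 q.1.2).Nonempty} =
        Prod.fst '' {r : ((B × unitInterval) × B) × unitInterval |
          r.2 ≤ r.1.1.2 ∧ σ (r.1.1.1, r.2) ∈ LC u r.1.2} := by
      ext ⟨⟨b, t⟩, z⟩
      constructor
      · rintro ⟨x, hx, τ, hτ, rfl⟩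
        exact ⟨(((b, t), z), τ), ⟨hτ, hx⟩, rfl⟩
      · rintro ⟨⟨⟨⟨b', t'⟩, z'⟩, τ⟩, ⟨h1, h2⟩, h3⟩
        simp only [Prod.mk.injEq] at h3
        obtain ⟨⟨rfl, rfl⟩, rfl⟩ := h3
        exact ⟨_, h2, τ, h1, rfl⟩
    rw [this]
    refine isClosedMap_fst_of_compactSpace _ (IsClosed.inter ?_ ?_)
    · exact isClosed_le (by fun_prop) (by fun_prop)
    · exact hE.preimage (f := fun r : ((B × unitInterval) × B) × unitInterval =>
        (σ (r.1.1.1, r.2), r.1.2)) (by fun_prop)
  have h2 : IsClosed {q : (B × unitInterval) × B | ∀ D : Set B, IsPreconnected D → q.1.1 ∈ D →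
      (D ∩ Tr σ q.1.1 q.1.2).Nonempty → (D ∩ LC u q.2).Nonempty} := by
    rw [← isOpen_compl_iff, isOpen_iff_mem_nhds]
    rintro ⟨⟨b, t⟩, z⟩ hq
    simp only [mem_compl_iff, mem_ofPred_eq, not_forall] at hq
    obtain ⟨D, hD, hbD, ⟨x, hxD, τ, hτ, hx⟩, hDz⟩ := hq
    rw [not_nonempty_iff_eq_empty, ← Set.disjoint_iff_inter_eq_empty] at hDz
    -- a path from `b` to `x` off `LC u z`
    have hO : IsOpen (LC u z)ᶜ := (LC_closed hu z).isOpen_compl
    have hbO : b ∈ (LC u z)ᶜ := fun h => Set.disjoint_left.1 hDz hbD h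
    have hc1 : IsConnected (connectedComponentIn (LC u z)ᶜ b) :=
      ⟨⟨b, mem_connectedComponentIn hbO⟩, isPreconnected_connectedComponentIn⟩
    have hpc := (hO.connectedComponentIn.isConnected_iff_isPathConnected).1 hc1
    have hxc : x ∈ connectedComponentIn (LC u z)ᶜ b := by
      refine hD.subset_connectedComponentIn hbD ?_ hxD
      intro w hw h
      exact Set.disjoint_left.1 hDz hw h
    obtain ⟨γ, hγ⟩ := hpc.joinedIn b (mem_connectedComponentIn hbO) x hxc
    have hcomp : IsCompact (range γ) := isCompact_range γ.continuous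
    obtain ⟨V, W, hV, hW, hDV, hzW, hVW⟩ := generalized_tube_lemma (s := range γ) hcomp
      (t := {z}) isCompact_singleton
      (n := {q : B × B | q.1 ∈ LC u q.2}ᶜ) (by rw [isOpen_compl_iff]; exact hE) (by
        rintro ⟨p, z'⟩ ⟨⟨s, rfl⟩, rfl⟩ hmem
        exact connectedComponentIn_subset _ _ (hγ s) hmem)
    have hbV : b ∈ V := hDV ⟨0, γ.source⟩
    have hV1 : IsOpen (connectedComponentIn V b) := hV.connectedComponentIn
    have hb1 : b ∈ connectedComponentIn V b := mem_connectedComponentIn hbV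
    have hx1 : x ∈ connectedComponentIn V b := by
      refine (isPreconnected_range γ.continuous).subset_connectedComponentIn ⟨0, γ.source⟩ hDV ?_
      exact ⟨1, γ.target⟩
    have hcont : Continuous fun q : (B × unitInterval) × B => σ (q.1.1, min τ q.1.2) := by
      fun_prop
    have hopen : IsOpen {q : (B × unitInterval) × B | q.1.1 ∈ connectedComponentIn V b ∧ q.2 ∈ W ∧
        σ (q.1.1, min τ q.1.2) ∈ connectedComponentIn V b} := by
      refine IsOpen.inter (hV1.preimage (by fun_prop)) (IsOpen.inter (hW.preimage continuous_snd)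
        (hV1.preimage hcont))
    refine Filter.mem_of_superset (hopen.mem_nhds ⟨hb1, hzW rfl, ?_⟩) ?_
    · rw [min_eq_left hτ, ← hx]
      exact hx1
    · rintro ⟨⟨b', t'⟩, z'⟩ ⟨h1, h2, h3⟩ hall
      simp only at h1 h2 h3
      obtain ⟨w, hw1, hw2⟩ := hall (connectedComponentIn V b) isPreconnected_connectedComponentIn
        h1 ⟨_, h3, min τ t', min_le_right _ _, rfl⟩
      exact hVW (⟨connectedComponentIn_subset _ _ hw1, h2⟩ : ((w, z') : B × B) ∈ V ×ˢ W) hw2
  exact h1.inter h2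

theorem tr_compact {σ : B × unitInterval → B} (hσ : Continuous σ) (b : B) (t : unitInterval) :
    IsCompact (Tr σ b t) ∧ IsPreconnected (Tr σ b t) ∧ (Tr σ b t).Nonempty := by
  have h : Tr σ b t = (fun τ => σ (b, τ)) '' Iic t := by
    ext x
    constructor
    · rintro ⟨τ, hτ, rfl⟩
      exact ⟨τ, hτ, rfl⟩
    · rintro ⟨τ, hτ, rfl⟩
      exact ⟨τ, hτ, rfl⟩
  rw [h]
  refine ⟨isClosed_Iic.isCompact.image (by fun_prop),
    isPreconnected_Iic.image _ (by fun_prop), ⟨_, t, mem_Iic.2 le_rfl, rfl⟩⟩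

/-- **The homotopy.** A map constant on the level components of a real function on a contractible
compact space `B` can be contracted inside its image, rel any set lying in the level component of
the centre of contraction. -/
theorem null_homotopy (hu : Continuous u) {σ : B × unitInterval → B} (hσ : Continuous σ)
    (b0 : B) (h0 : ∀ b, σ (b, 0) = b0) (h1 : ∀ b, σ (b, 1) = b)
    {Y : Type*} [TopologicalSpace Y] {g : B → Y} (hg : Continuous g)
    (hgc : ∀ z, ∀ w ∈ LC u z, g w = g z) :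
    ∃ G : B × unitInterval → Y, Continuous G ∧ (∀ b, G (b, 0) = g b0) ∧ (∀ b, G (b, 1) = g b) ∧
      ∀ b ∈ LC u b0, ∀ t, G (b, t) = g b0 := by
  have hex : ∀ p : B × unitInterval, ∃ z, Gate u (Tr σ p.1 p.2) p.1 z := fun p =>
    gate_exists hu (tr_compact hσ p.1 p.2).1 (tr_compact hσ p.1 p.2).2.1
      (tr_compact hσ p.1 p.2).2.2 p.1
  choose Z hZ using hex
  have huniq : ∀ p : B × unitInterval, ∀ z, Gate u (Tr σ p.1 p.2) p.1 z → g (Z p) = g z := by
    intro p z hz
    exact hgc z _ (gate_unique hu hz (hZ p))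
  have hcl := gate_rel_closed hu hσ
  refine ⟨fun p => g (Z p), ?_, ?_, ?_, ?_⟩
  · rw [continuous_iff_isClosed]
    intro T hT
    have : (fun p => g (Z p)) ⁻¹' T = Prod.fst ''
        ({q : (B × unitInterval) × B | Gate u (Tr σ q.1.1 q.1.2) q.1.1 q.2} ∩
          Prod.snd ⁻¹' (g ⁻¹' T)) := by
      ext p
      constructor
      · intro hp
        exact ⟨(p, Z p), ⟨hZ p, hp⟩, rfl⟩
      · rintro ⟨⟨p', z⟩, ⟨hz, hzT⟩, rfl⟩
        show g (Z p') ∈ T
        rw [huniq p' z hz]
        exact hzT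
    rw [this]
    exact isClosedMap_fst_of_compactSpace _ (hcl.inter ((hT.preimage hg).preimage continuous_snd))
  · intro b
    refine huniq (b, 0) b0 ⟨⟨b0, LC_self b0, 0, le_rfl, (h0 b).symm⟩, ?_⟩
    rintro D hD hbD ⟨x, hxD, τ, hτ, hx⟩
    have hτ0 : τ = 0 := le_antisymm hτ bot_le
    rw [hτ0] at hx
    simp only [h0] at hx
    exact ⟨b0, hx ▸ hxD, LC_self b0⟩
  · intro b
    refine huniq (b, 1) b ⟨⟨b, LC_self b, 1, le_rfl, (h1 b).symm⟩, ?_⟩
    rintro D hD hbD -
    exact ⟨b, hbD, LC_self b⟩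
  · intro b hb t
    refine huniq (b, t) b0 ⟨⟨b0, LC_self b0, 0, bot_le, (h0 b).symm⟩, ?_⟩
    rintro D hD hbD -
    exact ⟨b, hbD, hb⟩

end hom

end Pool.Agent.N491.HP
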