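import Mathlib
import Pool.Agent.N491.HP.Gate

/-!
# A map into a space with a good height function is constant on level components
-/

set_option autoImplicit false

open Set Topology

namespace Pool.Agent.N491.HP

section

variable {B : Type*} [MetricSpace B] [CompactSpace B] [SimplyConnectedSpace B]
    [LocallyPathConnectedSpace B] {X : Type*} [MetricSpace X]

/-- the component of `{u ≤ h}` through `x` avoids a given compact set off the level component -/
theorem shrink {u : B → ℝ} (hu : Continuous u) (hu0 : ∀ b, 0 ≤ u b) {x : B} (hx : u x = 0)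
    {P : Set B} (hP : IsCompact P) (hPx : Disjoint P (LC u x)) :
    ∃ h : ℝ, 0 < h ∧ Disjoint P (connectedComponentIn {w | u w ≤ h} x) := by
  by_contra hcon
  push Not at hcon
  have hpos : ∀ n : ℕ, (0:ℝ) < 1 / ((n:ℝ) + 1) := fun n => by positivity
  have hxm : ∀ n : ℕ, x ∈ {w | u w ≤ 1 / ((n:ℝ) + 1)} := fun n => by
    show u x ≤ _
    rw [hx]; exact (hpos n).le
  have hcl : ∀ n : ℕ, IsClosed (connectedComponentIn {w | u w ≤ 1 / ((n:ℝ) + 1)} x) := by
    intro n
    have hcs : IsClosed {w | u w ≤ 1 / ((n:ℝ) + 1)} := isClosed_le hu continuous_const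
    refine isClosed_of_closure_subset ?_
    exact isPreconnected_connectedComponentIn.closure.subset_connectedComponentIn
      (subset_closure (mem_connectedComponentIn (hxm n)))
      (closure_minimal (connectedComponentIn_subset _ _) hcs)
  have hne := IsCompact.nonempty_iInter_of_sequence_nonempty_isCompact_isClosed
    (fun n : ℕ => P ∩ connectedComponentIn {w | u w ≤ 1 / ((n:ℝ) + 1)} x)
    (by
      intro n
      refine inter_subset_inter_right _ ?_
      refine connectedComponentIn_mono x ?_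
      intro w hw
      have hw' : u w ≤ 1 / (((n + 1 : ℕ) : ℝ) + 1) := hw
      show u w ≤ 1 / ((n:ℝ) + 1)
      refine hw'.trans ?_
      apply one_div_le_one_div_of_le
      · positivity
      · push_cast; linarith)
    (by
      intro n
      have := hcon _ (hpos n)
      rw [Set.not_disjoint_iff_nonempty_inter] at this
      exact this)
    (hP.inter_right (hcl 0))
    (fun n => hP.isClosed.inter (hcl n))
  obtain ⟨p, hp⟩ := hne
  rw [mem_iInter] at hp
  have hpC : p ∉ LC u x := fun h => Set.disjoint_left.1 hPx (hp 0).1 h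
  obtain ⟨η, hη, hgap⟩ := lev_gap hu hpC
  obtain ⟨n, hn⟩ := exists_nat_one_div_lt hη
  obtain ⟨w, hw, hle⟩ := hgap _ isPreconnected_connectedComponentIn
    (mem_connectedComponentIn (hxm n)) (hp n).2
  have hw'' : w ∈ {w | u w ≤ 1 / ((n:ℝ) + 1)} := connectedComponentIn_subset _ _ hw
  have hw' : u w ≤ 1 / ((n:ℝ) + 1) := hw''
  rw [hx, sub_zero, abs_of_nonneg (hu0 w)] at hle
  linarith

variable {g : B → X} {ht : X → ℝ}

theorem const_frontier (hg : Continuous g) (hht : Continuous ht) (hpos : ∀ x, 0 ≤ ht x)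
    (hcount : ∀ h : ℝ, 0 < h → (ht ⁻¹' {h}).Countable) {z : B} (hz : ht (g z) = 0) {p : B}
    {x1 x2 : B} (hx1 : x1 ∈ frontier (connectedComponentIn (LC (ht ∘ g) z)ᶜ p))
    (hx2 : x2 ∈ frontier (connectedComponentIn (LC (ht ∘ g) z)ᶜ p)) : g x1 = g x2 := by
  by_contra hne
  have hu : Continuous (ht ∘ g) := hht.comp hg
  set C := LC (ht ∘ g) z with hC
  set F := connectedComponentIn Cᶜ p with hF
  have hCcl : IsClosed C := LC_closed hu z
  have hFo : IsOpen F := hCcl.isOpen_compl.connectedComponentIn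
  have hfr : frontier F ⊆ C := by
    have h := frontier_comp hCcl.isOpen_compl (b := p)
    rwa [compl_compl] at h
  have hu1 : ∀ w ∈ C, ht (g w) = 0 := fun w hw => by
    have := LC_u hw
    simp only [Function.comp] at this
    rw [this, hz]
  have hLC1 : LC (ht ∘ g) x1 = C := LC_eq (hfr hx1)
  set ε := dist (g x1) (g x2) / 2 with hε
  have hεpos : 0 < ε := by
    have := dist_pos.2 hne
    positivity
  obtain ⟨V1, ⟨hV1o, hxV1, hV1c⟩, hV1⟩ := (LocallyConnectedSpace.open_connected_basis x1).mem_iff.1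
    ((Metric.continuous_iff'.1 hg x1 ε hεpos))
  obtain ⟨V2, ⟨hV2o, hxV2, hV2c⟩, hV2⟩ := (LocallyConnectedSpace.open_connected_basis x2).mem_iff.1
    ((Metric.continuous_iff'.1 hg x2 ε hεpos))
  obtain ⟨y1, hy1V, hy1F⟩ := mem_closure_iff.1 hx1.1 V1 hV1o hxV1
  obtain ⟨y2, hy2V, hy2F⟩ := mem_closure_iff.1 hx2.1 V2 hV2o hxV2
  have hFc : IsConnected F := ⟨⟨y1, hy1F⟩, isPreconnected_connectedComponentIn⟩
  have hFpc := (hFo.isConnected_iff_isPathConnected).1 hFc
  obtain ⟨γ, hγ⟩ := hFpc.joinedIn y1 hy1F y2 hy2F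
  have hPc : IsCompact (range γ) := isCompact_range γ.continuous
  have hPp : IsPreconnected (range γ) := isPreconnected_range γ.continuous
  have hPC : Disjoint (range γ) C := by
    rw [Set.disjoint_left]
    rintro _ ⟨s, rfl⟩ hs
    exact connectedComponentIn_subset _ _ (hγ s) hs
  obtain ⟨h, hh, hPh⟩ := shrink (u := ht ∘ g) hu (fun b => hpos _) (x := x1)
    (hu1 x1 (hfr hx1)) hPc (by rw [hLC1]; exact hPC)
  set W := connectedComponentIn {w | (ht ∘ g) w ≤ h} x1 with hW
  have hx1le : x1 ∈ {w | (ht ∘ g) w ≤ h} := by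
    show ht (g x1) ≤ h
    rw [hu1 x1 (hfr hx1)]; exact hh.le
  have hx1W : x1 ∈ W := mem_connectedComponentIn hx1le
  have hWcl : IsClosed W := by
    have hcs : IsClosed {w | (ht ∘ g) w ≤ h} := isClosed_le hu continuous_const
    refine isClosed_of_closure_subset ?_
    exact isPreconnected_connectedComponentIn.closure.subset_connectedComponentIn
      (subset_closure hx1W) (closure_minimal (connectedComponentIn_subset _ _) hcs)
  have hAu : ∀ w ∈ frontier W, ht (g w) = h := by
    intro w hw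
    have hwW : w ∈ W := hWcl.frontier_subset hw
    have hle' : w ∈ {w | (ht ∘ g) w ≤ h} := connectedComponentIn_subset _ _ hwW
    have hle : (ht ∘ g) w ≤ h := hle'
    by_contra hne'
    have hlt : (ht ∘ g) w < h := lt_of_le_of_ne hle hne'
    obtain ⟨V, ⟨hVo, hwV, hVc⟩, hV⟩ :=
      (LocallyConnectedSpace.open_connected_basis w).mem_iff.1
      ((isOpen_lt hu continuous_const).mem_nhds hlt)
    have hVW : V ⊆ W := by
      have e := connectedComponentIn_eq hwW
      rw [hW, e]
      exact hVc.isPreconnected.subset_connectedComponentIn hwV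
        (fun v hv => by
          have h3 : v ∈ {x | (ht ∘ g) x < h} := hV hv
          have h4 : (ht ∘ g) v < h := h3
          show (ht ∘ g) v ≤ h
          exact h4.le)
    exact hw.2 (mem_interior.2 ⟨V, hVW, hVo, hwV⟩)
  have hy1P : y1 ∈ range γ := ⟨0, γ.source⟩
  have hy2P : y2 ∈ range γ := ⟨1, γ.target⟩
  have hsep : Sep (frontier W) x1 y1 := fun D hD h1 h2 =>
    meets_frontier hD ⟨x1, h1, hx1W⟩ ⟨y1, h2, fun h3 => Set.disjoint_left.1 hPh hy1P h3⟩
  obtain ⟨E, hEA, hEc, hEp, hEs⟩ := janis isClosed_frontier (x := x1) (y := y1)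
    (fun h3 => by
      have := hAu _ h3
      rw [hu1 x1 (hfr hx1)] at this
      linarith)
    (fun h3 => Set.disjoint_left.1 hPh hy1P (hWcl.frontier_subset h3)) hsep
  obtain ⟨e1, he1V, he1E⟩ := hEs V1 hV1c.isPreconnected hxV1 hy1V
  have hD : IsPreconnected (C ∪ V2 ∪ range γ) := by
    refine IsPreconnected.union y2 (Or.inr hy2V) hy2P ?_ hPp
    exact IsPreconnected.union x2 (hfr hx2) hxV2 (LC_preconn z) hV2c.isPreconnected
  obtain ⟨e2, he2D, he2E⟩ := hEs _ hD (Or.inl (Or.inl (hfr hx1))) (Or.inr hy1P)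
  have he2V : e2 ∈ V2 := by
    rcases he2D with (h3 | h3) | h3
    · have h4 := hAu _ (hEA he2E)
      rw [hu1 e2 h3] at h4
      linarith
    · exact h3
    · exact absurd (hWcl.frontier_subset (hEA he2E)) (fun h5 => Set.disjoint_left.1 hPh h3 h5)
  have hsub : (g '' E).Subsingleton := by
    refine (hcount h hh).isTotallyDisconnected _ ?_ (hEp.image _ hg.continuousOn)
    rintro _ ⟨w, hw, rfl⟩
    exact hAu w (hEA hw)
  have he : g e1 = g e2 := hsub ⟨e1, he1E, rfl⟩ ⟨e2, he2E, rfl⟩
  have hd1 : dist (g e1) (g x1) < ε := hV1 he1V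
  have hd2 : dist (g e2) (g x2) < ε := hV2 he2V
  rw [← he] at hd2
  have := dist_triangle_left (g x1) (g x2) (g e1)
  rw [hε] at hd1 hd2
  linarith

/-- **Step 1.** -/
theorem const_on_LC (hg : Continuous g) (hht : Continuous ht) (hpos : ∀ x, 0 ≤ ht x)
    (hcount : ∀ h : ℝ, 0 < h → (ht ⁻¹' {h}).Countable)
    (hpf : ∀ γ : unitInterval → X, Continuous γ → (∀ t, ht (γ t) = 0) → γ 0 = γ 1) (z : B) :
    ∀ w ∈ LC (ht ∘ g) z, g w = g z := by
  classical
  have hu : Continuous (ht ∘ g) := hht.comp hg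
  intro w hw
  rcases (hpos (g z)).lt_or_eq with hlt | heq
  · have hsub : (g '' LC (ht ∘ g) z).Subsingleton := by
      refine (hcount _ hlt).isTotallyDisconnected _ ?_ ((LC_preconn z).image _ hg.continuousOn)
      rintro _ ⟨v, hv, rfl⟩
      have h := LC_u hv
      exact h
    exact hsub ⟨w, hw, rfl⟩ ⟨z, LC_self z, rfl⟩
  have hz : ht (g z) = 0 := heq.symm
  set C := LC (ht ∘ g) z with hC
  have hCcl : IsClosed C := LC_closed hu z
  have hne : Nonempty B := ⟨z⟩
  have hu1 : ∀ w ∈ C, ht (g w) = 0 := fun w hw => by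
    have := LC_u hw
    simp only [Function.comp] at this
    rw [this, hz]
  have hfr : ∀ p, frontier (connectedComponentIn Cᶜ p) ⊆ C := by
    intro p
    have h := frontier_comp hCcl.isOpen_compl (b := p)
    rwa [compl_compl] at h
  let k : B → X := fun p => if p ∈ C then g p else
    g (Classical.epsilon fun x => x ∈ frontier (connectedComponentIn Cᶜ p))
  have hk1 : ∀ p ∈ C, k p = g p := fun p hp => if_pos hp
  have hkne : ∀ p ∉ C, (frontier (connectedComponentIn Cᶜ p)).Nonempty := fun p hp =>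
    frontier_comp_nonempty (O := Cᶜ) hp ⟨z, fun h => h (LC_self z)⟩
  have hk2 : ∀ p ∉ C, ∀ x ∈ frontier (connectedComponentIn Cᶜ p), k p = g x := by
    intro p hp x hx
    have h1 : k p = g (Classical.epsilon fun x => x ∈ frontier (connectedComponentIn Cᶜ p)) :=
      if_neg hp
    rw [h1]
    exact const_frontier hg hht hpos hcount hz
      (Classical.epsilon_spec (p := fun x => x ∈ frontier (connectedComponentIn Cᶜ p))
        (hkne p hp)) hx
  have hk0 : ∀ p, ht (k p) = 0 := by
    intro p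
    by_cases hp : p ∈ C
    · rw [hk1 p hp]; exact hu1 p hp
    · obtain ⟨x, hx⟩ := hkne p hp
      rw [hk2 p hp x hx]
      exact hu1 x (hfr p hx)
  have hkc : Continuous k := by
    rw [continuous_iff_continuousAt]
    intro p
    by_cases hp : p ∈ C
    · intro U hU
      rw [hk1 p hp] at hU
      obtain ⟨V, ⟨hVo, hpV, hVc⟩, hV⟩ :=
        (LocallyConnectedSpace.open_connected_basis p).mem_iff.1 (hg.continuousAt hU)
      refine Filter.mem_map.2 (Filter.mem_of_superset (hVo.mem_nhds hpV) ?_)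
      intro p' hp'
      show k p' ∈ U
      by_cases hp'C : p' ∈ C
      · rw [hk1 p' hp'C]; exact hV hp'
      · obtain ⟨c, hcV, hcF⟩ := meets_frontier (F := connectedComponentIn Cᶜ p')
          hVc.isPreconnected ⟨p', hp', mem_connectedComponentIn hp'C⟩
          ⟨p, hpV, fun h => connectedComponentIn_subset _ _ h hp⟩
        rw [hk2 p' hp'C c hcF]
        exact hV hcV
    · have hop : IsOpen (connectedComponentIn Cᶜ p) := hCcl.isOpen_compl.connectedComponentIn
      have hev : k =ᶠ[𝓝 p] fun _ => k p := by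
        filter_upwards [hop.mem_nhds (mem_connectedComponentIn hp)] with p' hp'
        obtain ⟨x, hx⟩ := hkne p hp
        have e := connectedComponentIn_eq hp'
        have hp'C : p' ∉ C := connectedComponentIn_subset _ _ hp'
        rw [hk2 p hp x hx, hk2 p' hp'C x (by rw [← e]; exact hx)]
      exact continuousAt_const.congr hev.symm
  obtain ⟨γ⟩ := PathConnectedSpace.joined w z
  have h := hpf (k ∘ γ) (hkc.comp γ.continuous) (fun t => hk0 _)
  simp only [Function.comp, γ.source, γ.target] at h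
  rw [hk1 w hw, hk1 z (LC_self z)] at h
  exact h

/-- **Key theorem.** -/
theorem key (hg : Continuous g) (hht : Continuous ht) (hpos : ∀ x, 0 ≤ ht x)
    (hcount : ∀ h : ℝ, 0 < h → (ht ⁻¹' {h}).Countable)
    (hpf : ∀ γ : unitInterval → X, Continuous γ → (∀ t, ht (γ t) = 0) → γ 0 = γ 1)
    {σ : B × unitInterval → B} (hσ : Continuous σ)
    (b0 : B) (h0 : ∀ b, σ (b, 0) = b0) (h1 : ∀ b, σ (b, 1) = b)
    {M : Set X} {f : B → M} (hf : Continuous f) (hfg : ∀ b, (f b : X) = g b) {T : Set B}
    (hT : IsPreconnected T) (hbT : b0 ∈ T) (hfT : ∀ b ∈ T, f b = f b0) :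
    ∃ G : B × unitInterval → M, Continuous G ∧ (∀ b, G (b, 0) = f b0) ∧ (∀ b, G (b, 1) = f b) ∧
      ∀ b ∈ T, ∀ t, G (b, t) = f b0 := by
  have hu : Continuous (ht ∘ g) := hht.comp hg
  have hc := const_on_LC hg hht hpos hcount hpf
  obtain ⟨G, hG, hG0, hG1, hGr⟩ := null_homotopy (u := ht ∘ g) hu hσ b0 h0 h1 (Y := M) (g := f) hf
    (fun z w hw => Subtype.ext (by rw [hfg, hfg]; exact hc z w hw))
  refine ⟨G, hG, hG0, hG1, fun b hb t => hGr b ?_ t⟩
  refine LC_sub hT hbT ?_ hb
  intro w hw
  show ht (g w) = ht (g b0)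
  rw [← hfg, ← hfg, hfT w hw]

end

end Pool.Agent.N491.HP
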