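import Mathlib
import Pool.Agent.N491.HP.Step

/-!
# Vanishing of the higher homotopy groups of all subsets
-/

set_option autoImplicit false

open Set Topology

namespace Pool.Agent.N491.HP

theorem boundary_preconn (m : ℕ) (hm : 2 ≤ m) : IsPreconnected (Cube.boundary (Fin m)) := by
  have : Nontrivial (Fin m) := Fin.nontrivial_iff_two_le.2 hm
  refine isPreconnected_of_forall (fun _ => 0) ?_
  rintro y ⟨i, hi⟩
  obtain ⟨j, hj⟩ := exists_ne i
  have h1 : IsPreconnected (range fun z : Fin m → unitInterval => Function.update z i (y i)) :=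
    isPreconnected_range (by fun_prop)
  have h2 : IsPreconnected (range fun z : Fin m → unitInterval => Function.update z j 0) :=
    isPreconnected_range (by fun_prop)
  have h3 : Function.update (fun _ => 0) i (y i) ∈
      range fun z : Fin m → unitInterval => Function.update z i (y i) := ⟨_, rfl⟩
  have h4 : Function.update (fun _ => 0) i (y i) ∈
      range fun z : Fin m → unitInterval => Function.update z j 0 := by
    refine ⟨Function.update (fun _ => 0) i (y i), ?_⟩
    ext k
    by_cases hk : k = j
    · subst hk
      simp [hj]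
    · simp [hk]
  refine ⟨_, ?_, Or.inr ⟨fun _ => 0, ?_⟩, Or.inl ⟨y, ?_⟩, IsPreconnected.union _ h3 h4 h1 h2⟩
  · rintro z (⟨w, rfl⟩ | ⟨w, rfl⟩)
    · exact ⟨i, by simpa using hi⟩
    · exact ⟨j, by simp⟩
  · simp
  · simp

/-- a metric space with a height function whose zero level contains no nonconstant path and whose
other levels are countable has no higher homotopy in any subset -/
theorem pi_trivial {X : Type*} [MetricSpace X] {ht : X → ℝ} (hht : Continuous ht)
    (hpos : ∀ x, 0 ≤ ht x) (hcount : ∀ h : ℝ, 0 < h → (ht ⁻¹' {h}).Countable)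
    (hpf : ∀ γ : unitInterval → X, Continuous γ → (∀ t, ht (γ t) = 0) → γ 0 = γ 1)
    (M : Set X) (x : M) (m : ℕ) (hm : 2 ≤ m) : Subsingleton (HomotopyGroup (Fin m) M x) := by
  have hσ : Continuous fun p : (Fin m → unitInterval) × unitInterval => fun i => p.2 * p.1 i := by
    fun_prop
  have : LocallyPathConnectedSpace unitInterval := (convex_Icc (0:ℝ) 1).locallyPathConnectedSpace
  have : LocallyPathConnectedSpace (Fin m → unitInterval) := inferInstance
  have : ContractibleSpace (Fin m → unitInterval) := by
    rw [contractible_iff_id_nullhomotopic]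
    refine ⟨fun _ => 0, ⟨⟨⟨fun p => fun i => unitInterval.symm p.1 * p.2 i, by fun_prop⟩, ?_, ?_⟩⟩⟩
    · intro y
      ext i
      simp
    · intro y
      ext i
      simp
  have hbT : (fun _ => 0 : Fin m → unitInterval) ∈ Cube.boundary (Fin m) :=
    ⟨⟨0, by omega⟩, Or.inl rfl⟩
  have key0 : ∀ f : GenLoop (Fin m) M x, GenLoop.Homotopic GenLoop.const f := by
    intro f
    obtain ⟨G, hG, hG0, hG1, hGr⟩ := key (g := fun b => ((f : C(Fin m → unitInterval, M)) b : X))
      (ht := ht) (by fun_prop) hht hpos hcount hpf hσ (fun _ => 0)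
      (by intro b; ext i; simp) (by intro b; ext i; simp) (M := M)
      (f := fun b => (f : C(Fin m → unitInterval, M)) b) (by fun_prop) (fun _ => rfl)
      (boundary_preconn m hm) hbT
      (fun b hb => by
        have h1 := GenLoop.boundary f b hb
        have h2 := GenLoop.boundary f _ hbT
        exact h1.trans h2.symm)
    have hx : (f : C(Fin m → unitInterval, M)) (fun _ => 0) = x := GenLoop.boundary f _ hbT
    refine ⟨⟨⟨⟨fun p => G (p.2, p.1), by fun_prop⟩, ?_, ?_⟩, ?_⟩⟩
    · intro b
      show G (b, 0) = x
      rw [hG0, hx]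
    · intro b
      show G (b, 1) = _
      rw [hG1]
    · intro t b hb
      show G (b, t) = x
      rw [hGr b hb, hx]
  constructor
  intro a b
  induction a using Quotient.inductionOn with
  | h a =>
    induction b using Quotient.inductionOn with
    | h b => exact Quotient.sound ((key0 a).symm.trans (key0 b))

end Pool.Agent.N491.HP
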