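import Mathlib
import Pool.Agent.N491.HP.Dim
import Pool.Agent.N491.HP.PiT

/-!
# The Peano continuum
-/

set_option autoImplicit false

open Set Topology Pool.Agent.R292.CovDim

namespace Pool.Agent.N491.HP

/-- level sets of a distance function on the line at positive heights are countable -/
theorem dist_level_countable {C : Set ℝ} (hC : IsClosed C) (hne : C.Nonempty) {h : ℝ}
    (hh : 0 < h) : {t : ℝ | Metric.infDist t C = h}.Countable := by
  have h1 : {t : ℝ | Metric.infDist t C = h} ⊆
      {t : ℝ | Metric.infDist t C = h ∧ t - h ∈ C} ∪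
      {t : ℝ | Metric.infDist t C = h ∧ t + h ∈ C} := by
    intro t ht
    have ht' : Metric.infDist t C = h := ht
    obtain ⟨c, hc, hd⟩ := hC.exists_infDist_eq_dist hne t
    rw [ht', Real.dist_eq] at hd
    rcases abs_choice (t - c) with h2 | h2
    · left
      refine ⟨ht', ?_⟩
      have : t - h = c := by rw [hd, h2]; ring
      rw [this]; exact hc
    · right
      refine ⟨ht', ?_⟩
      have : t + h = c := by rw [hd, h2]; ring
      rw [this]; exact hc
  refine Countable.mono h1 (Countable.union ?_ ?_)
  · refine countable_of_injective_of_countable_image (f := fun t : ℝ => ⌊t / (2 * h)⌋) ?_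
      (to_countable _)
    have key : ∀ s t : ℝ, s < t → Metric.infDist s C = h → t - h ∈ C →
        Metric.infDist t C = h → ⌊s / (2 * h)⌋ ≠ ⌊t / (2 * h)⌋ := by
      intro s t hst hs htC ht he
      have h2 : h ≤ |s - (t - h)| := by
        have h5 := Metric.infDist_le_dist_of_mem (x := s) htC
        rw [hs, Real.dist_eq] at h5
        exact h5
      have h3 : s + 2 * h ≤ t := by
        rcases abs_cases (s - (t - h)) with h4 | h4
        · linarith
        · linarith
      have h4 : s / (2 * h) + 1 ≤ t / (2 * h) := by
        rw [← sub_nonneg]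
        have : t / (2 * h) - (s / (2 * h) + 1) = (t - s - 2 * h) / (2 * h) := by
          field_simp
          ring
        rw [this]
        apply div_nonneg <;> linarith
      have h5 : ⌊s / (2 * h)⌋ + 1 ≤ ⌊t / (2 * h)⌋ := by
        rw [← Int.floor_add_one]
        exact Int.floor_mono h4
      omega
    rintro s ⟨hs, hsC⟩ t ⟨ht, htC⟩ he
    rcases lt_trichotomy s t with hlt | heq | hlt
    · exact absurd he (key s t hlt hs htC ht)
    · exact heq
    · exact absurd he.symm (key t s hlt ht hsC hs)
  · refine countable_of_injective_of_countable_image (f := fun t : ℝ => ⌊t / (2 * h)⌋) ?_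
      (to_countable _)
    have key : ∀ s t : ℝ, s < t → Metric.infDist t C = h → s + h ∈ C →
        ⌊s / (2 * h)⌋ ≠ ⌊t / (2 * h)⌋ := by
      intro s t hst ht hsC he
      have h2 : h ≤ |t - (s + h)| := by
        have h5 := Metric.infDist_le_dist_of_mem (x := t) hsC
        rw [ht, Real.dist_eq] at h5
        exact h5
      have h3 : s + 2 * h ≤ t := by
        rcases abs_cases (t - (s + h)) with h4 | h4
        · linarith
        · linarith
      have h4 : s / (2 * h) + 1 ≤ t / (2 * h) := by
        rw [← sub_nonneg]
        have : t / (2 * h) - (s / (2 * h) + 1) = (t - s - 2 * h) / (2 * h) := by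
          field_simp
          ring
        rw [this]
        apply div_nonneg <;> linarith
      have h5 : ⌊s / (2 * h)⌋ + 1 ≤ ⌊t / (2 * h)⌋ := by
        rw [← Int.floor_add_one]
        exact Int.floor_mono h4
      omega
    rintro s ⟨hs, hsC⟩ t ⟨ht, htC⟩ he
    rcases lt_trichotomy s t with hlt | heq | hlt
    · exact absurd he (key s t hlt ht hsC)
    · exact heq
    · exact absurd he.symm (key t s hlt hs htC)

instance unitInterval_tietze : TietzeExtension unitInterval :=
  TietzeExtension.of_retract (Z := ℝ) ⟨Subtype.val, continuous_subtype_val⟩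
    ⟨projIcc 0 1 zero_le_one, continuous_projIcc⟩ (by
      ext x
      simp [projIcc_val])

theorem main_space : ∃ (X : Type) (_ : MetricSpace X), CompactSpace X ∧ ConnectedSpace X ∧
    LocallyConnectedSpace X ∧ (∀ n : ℕ, ¬ DimLE X n) ∧
    ∀ (M : Set X) (x : M) (m : ℕ), 2 ≤ m → Subsingleton (HomotopyGroup (Fin m) M x) := by
  obtain ⟨f, hf, hfree⟩ := exists_free
  let _ : MetricSpace Q := TopologicalSpace.metrizableSpaceMetric Q
  -- the separator
  set K : Set Q := {y | f y = 1 / 2} with hK
  have hKc : IsClosed K := isClosed_eq (by fun_prop) continuous_const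
  have hKn : K.Nonempty := by
    have h0 : f (fun _ => 0) < 1 / 2 := by
      have := (abs_lt.1 (hf (fun _ => 0))).2
      simp at this
      linarith
    have h1 : 1 / 2 < f (fun _ => 1) := by
      have := (abs_lt.1 (hf (fun _ => 1))).1
      simp at this
      linarith
    obtain ⟨y, hy⟩ := mem_range_of_exists_le_of_exists_ge f.continuous ⟨_, h0.le⟩ ⟨_, h1.le⟩
    exact ⟨y, hy⟩
  have : CompactSpace K := isCompact_iff_compactSpace.1 hKc.isCompact
  have : Nonempty K := hKn.to_subtype
  obtain ⟨φ0, hφ0c, hφ0s⟩ := exists_nat_bool_continuous_surjective_of_compact K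
  let φ : C(cantorSet, Q) := ⟨fun c => (φ0 (cantorSetHomeomorphNatToBool c) : Q), by fun_prop⟩
  obtain ⟨G, hG⟩ := φ.exists_restrict_eq isClosed_cantorSet
  have hGφ : ∀ c (hc : c ∈ cantorSet), G c = φ ⟨c, hc⟩ := fun c hc => by
    rw [← hG]
    rfl
  let g : unitInterval → Q × ℝ := fun t => (G t, Metric.infDist (t : ℝ) cantorSet)
  have hgc : Continuous g := by
    refine Continuous.prodMk (by fun_prop) ?_
    exact (Metric.continuous_infDist_pt cantorSet).comp continuous_subtype_val
  have hCne : cantorSet.Nonempty := ⟨0, zero_mem_cantorSet⟩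
  have hcomp : IsCompact (range g) := isCompact_range hgc
  have : CompactSpace (range g) := isCompact_iff_compactSpace.1 hcomp
  have hlow : ∀ t : unitInterval, Metric.infDist (t : ℝ) cantorSet = 0 → (t : ℝ) ∈ cantorSet :=
    fun t ht => (isClosed_cantorSet.mem_iff_infDist_zero hCne).2 ht
  refine ⟨range g, inferInstance, inferInstance, ?_, ?_, ?_, ?_⟩
  · exact isConnected_iff_connectedSpace.1 (isConnected_range hgc)
  · have : LocallyPathConnectedSpace unitInterval :=
      (convex_Icc (0:ℝ) 1).locallyPathConnectedSpace
    have hq : IsQuotientMap (rangeFactorization g) := by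
      refine IsClosedMap.isQuotientMap ?_ hgc.rangeFactorization rangeFactorization_surjective
      exact hgc.rangeFactorization.isClosedMap
    have := hq.locallyPathConnectedSpace
    infer_instance
  · intro n
    refine not_dimLE (e := fun x : range g => x.1.1) (by fun_prop)
      (Z := {x | x.1.2 = 0}) (isClosed_eq (by fun_prop) continuous_const) ?_ hf ?_ n
    · rintro x hx y hy hxy
      apply Subtype.ext
      apply Prod.ext
      · exact hxy
      · have hx' : x.1.2 = 0 := hx
        have hy' : y.1.2 = 0 := hy
        rw [hx', hy']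
    · intro y hy
      obtain ⟨c, hc⟩ := hφ0s ⟨y, hy⟩
      set c' := cantorSetHomeomorphNatToBool.symm c with hc'
      have hc01 : (c' : ℝ) ∈ Icc (0:ℝ) 1 := cantorSet_subset_unitInterval c'.2
      refine ⟨⟨g ⟨c', hc01⟩, mem_range_self _⟩, ?_, ?_⟩
      · show Metric.infDist (c' : ℝ) cantorSet = 0
        exact Metric.infDist_zero_of_mem c'.2
      · show G c' = y
        rw [hGφ _ c'.2]
        show ((φ0 (cantorSetHomeomorphNatToBool ⟨c', c'.2⟩) : K) : Q) = y
        have : cantorSetHomeomorphNatToBool ⟨(c' : ℝ), c'.2⟩ = c := by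
          rw [Subtype.coe_eta, hc', Homeomorph.apply_symm_apply]
        rw [this, hc]
  · intro M x m hm
    refine pi_trivial (X := range g) (ht := fun x => x.1.2) (by fun_prop) ?_ ?_ ?_ M x m hm
    · rintro ⟨_, t, rfl⟩
      exact Metric.infDist_nonneg
    · intro h hh
      have h1 := dist_level_countable isClosed_cantorSet hCne hh
      have h2 : ((fun x : range g => x.1.2) ⁻¹' {h}) ⊆
          (rangeFactorization g) '' ((Subtype.val : unitInterval → ℝ) ⁻¹'
            {t : ℝ | Metric.infDist t cantorSet = h}) := by
        rintro ⟨_, t, rfl⟩ ht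
        exact ⟨t, ht, rfl⟩
      refine Countable.mono h2 (Countable.image ?_ _)
      exact h1.preimage_of_injOn (Subtype.val_injective.injOn)
    · intro γ hγ h0
      have hmem : ∀ t, f ((γ t).1.1) = 1 / 2 := by
        intro t
        obtain ⟨s, hs⟩ := (γ t).2
        have h1 : (γ t).1.2 = 0 := h0 t
        rw [← hs] at h1
        have h2 := hlow s h1
        rw [← hs]
        show f (G s) = 1 / 2
        rw [hGφ _ h2]
        exact (φ0 (cantorSetHomeomorphNatToBool ⟨s, h2⟩)).2
      have h1 := hfree (1 / 2) (fun t => (γ t).1.1) (by fun_prop) hmem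
      apply Subtype.ext
      apply Prod.ext
      · exact h1
      · have e0 : (γ 0).1.2 = 0 := h0 0
        have e1 : (γ 1).1.2 = 0 := h0 1
        rw [e0, e1]

end Pool.Agent.N491.HP
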